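import Pool.Agent.H519R3.RS.Centre

set_option autoImplicit false
set_option linter.unusedSectionVars false

open MvPolynomial Pool.Agent.H920R2 Pool.Agent.H519R3.RS

universe u v

namespace Pool.Agent.H519R3.RE

section ei

variable {C : Type u} [CommRing C] {n : ℕ} (x : Fin n → C) (w : Fin n → ℕ)

/-- The ideals generated by the monomials of weight at least `d`. -/
def EI (d : ℕ) : Ideal C :=
  Ideal.span {y | ∃ α : Fin n → ℕ, d ≤ ∑ i, α i * w i ∧ y = ∏ i, x i ^ α i}

lemma mono_mem {d : ℕ} (α : Fin n → ℕ) (h : d ≤ ∑ i, α i * w i) : ∏ i, x i ^ α i ∈ EI x w d :=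
  Ideal.subset_span ⟨α, h, rfl⟩

lemma EI_zero : EI x w 0 = ⊤ := by
  rw [Ideal.eq_top_iff_one]
  have h := mono_mem x w (d := 0) (fun _ => 0) (Nat.zero_le _)
  simpa using h

lemma EI_anti {a b : ℕ} (h : a ≤ b) : EI x w b ≤ EI x w a := by
  apply Ideal.span_mono
  rintro y ⟨α, hα, rfl⟩
  exact ⟨α, h.trans hα, rfl⟩

lemma EI_mul (a b : ℕ) : EI x w a * EI x w b ≤ EI x w (a + b) := by
  unfold EI
  rw [Ideal.span_mul_span', Ideal.span_le]
  rintro _ ⟨_, ⟨α, hα, rfl⟩, _, ⟨β, hβ, rfl⟩, rfl⟩
  refine Ideal.subset_span ⟨α + β, ?_, ?_⟩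
  · have h : ∑ i, (α + β) i * w i = ∑ i, α i * w i + ∑ i, β i * w i := by
      rw [← Finset.sum_add_distrib]
      exact Finset.sum_congr rfl fun i _ => by rw [Pi.add_apply, add_mul]
    rw [h]
    exact Nat.add_le_add hα hβ
  · change (∏ i, x i ^ α i) * ∏ i, x i ^ β i = _
    rw [← Finset.prod_mul_distrib]
    exact Finset.prod_congr rfl fun i _ => by rw [Pi.add_apply, pow_add]

lemma mul_mem_EI {a b : ℕ} {y z : C} (hy : y ∈ EI x w a) (hz : z ∈ EI x w b) :
    y * z ∈ EI x w (a + b) := EI_mul x w a b (Ideal.mul_mem_mul hy hz)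

lemma pow_mem_EI {a : ℕ} {y : C} (hy : y ∈ EI x w a) (t : ℕ) : y ^ t ∈ EI x w (t * a) := by
  induction t with
  | zero => rw [Nat.zero_mul, EI_zero]; trivial
  | succ t ih =>
    rw [pow_succ, Nat.succ_mul]
    exact mul_mem_EI x w ih hy

lemma isFilt_EI : IsFilt (EI x w) := ⟨EI_zero x w, fun _ _ h => EI_anti x w h, EI_mul x w⟩

lemma map_mem_EI {C' : Type v} [CommRing C'] (f : C →+* C') {d : ℕ} {y : C} (hy : y ∈ EI x w d) :
    f y ∈ EI (fun i => f (x i)) w d := by
  have h : EI x w d ≤ (EI (fun i => f (x i)) w d).comap f := by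
    unfold EI
    rw [Ideal.span_le]
    rintro _ ⟨α, hα, rfl⟩
    have h1 : f (∏ i, x i ^ α i) = ∏ i, f (x i) ^ α i := by
      rw [map_prod]
      exact Finset.prod_congr rfl fun i _ => by rw [map_pow]
    change f (∏ i, x i ^ α i) ∈ EI (fun i => f (x i)) w d
    rw [h1]
    exact Ideal.subset_span ⟨α, hα, rfl⟩
  exact h hy

end ei

section hom

variable {k : Type u} [Field k] {n : ℕ} (w : Fin n → ℕ)

lemma weight_eq (α : Fin n →₀ ℕ) : Finsupp.weight w α = ∑ i, α i * w i := by
  rw [Finsupp.weight_apply, Finsupp.sum_fintype _ _ (fun i => by simp)]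
  simp

lemma hom_mem_EI {f : MvPolynomial (Fin n) k} {d : ℕ} (hf : IsWeightedHomogeneous w f d) :
    f ∈ EI (X : Fin n → MvPolynomial (Fin n) k) w d := by
  rw [f.as_sum]
  refine Ideal.sum_mem _ fun α hα => ?_
  have h1 : Finsupp.weight w α = d := hf (mem_support_iff.1 hα)
  rw [monomial_eq]
  refine Ideal.mul_mem_left _ _ ?_
  rw [Finsupp.prod_fintype _ _ (fun i => by rw [pow_zero])]
  refine mono_mem _ w _ ?_
  rw [← h1, weight_eq]

lemma hom_det {N : ℕ} (M : Matrix (Fin N) (Fin N) (MvPolynomial (Fin n) k)) (l : Fin N → ℕ)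
    (hM : ∀ a b, IsWeightedHomogeneous w (M a b) (l a)) :
    IsWeightedHomogeneous w M.det (∑ a, l a) := by
  rw [← Matrix.det_transpose, Matrix.det_apply]
  refine (weightedHomogeneousSubmodule k w _).sum_mem fun σ _ => ?_
  have h1 : IsWeightedHomogeneous w (∏ i, M.transpose (σ i) i) (∑ a, l a) := by
    refine IsWeightedHomogeneous.prod _ _ _ fun i _ => ?_
    exact hM i (σ i)
  rcases Int.units_eq_one_or (Equiv.Perm.sign σ) with h | h
  · rw [h, one_smul]
    exact h1
  · rw [h, Units.neg_smul, one_smul]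
    exact (weightedHomogeneousSubmodule k w _).neg_mem h1

attribute [local instance] MvPolynomial.weightedGradedAlgebra

/-- A power of a variable which is a combination of homogeneous elements is a homogeneous
combination. -/
lemma pow_comb {J : Type} [Fintype J] (Δ : J → MvPolynomial (Fin n) k) (lam : ℕ)
    (hΔ : ∀ j, IsWeightedHomogeneous w (Δ j) lam) (s : Fin n) (M : ℕ) (hM : lam ≤ M * w s)
    (h : (X s : MvPolynomial (Fin n) k) ^ M ∈ Ideal.span (Set.range Δ)) :
    ∃ g : J → MvPolynomial (Fin n) k, (∀ j, g j ∈ EI (X : Fin n → MvPolynomial (Fin n) k) w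
      (M * w s - lam)) ∧ (X s : MvPolynomial (Fin n) k) ^ M = ∑ j, g j * Δ j := by
  classical
  obtain ⟨c, hc⟩ := (Ideal.mem_span_range_iff_exists_fun).1 h
  refine ⟨fun j => weightedHomogeneousComponent w (M * w s - lam) (c j), ?_, ?_⟩
  · intro j
    exact hom_mem_EI w (weightedHomogeneousComponent_isWeightedHomogeneous _ _)
  · have h1 : IsWeightedHomogeneous w ((X s : MvPolynomial (Fin n) k) ^ M) (M * w s) := by
      have h2 := (isWeightedHomogeneous_X k w s).pow M
      simpa using h2
    have h3 := h1.weightedHomogeneousComponent_same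
    rw [← h3, ← hc, map_sum]
    refine Finset.sum_congr rfl fun j _ => ?_
    have h4 : M * w s = (M * w s - lam) + lam := by omega
    have h5 := DirectSum.coe_decompose_mul_add_of_right_mem
      (weightedHomogeneousSubmodule k w) (i := M * w s - lam) (a := c j)
      (b := Δ j) (j := lam) (hΔ j)
    have h6 : ∀ (e : ℕ) (f : MvPolynomial (Fin n) k),
        ((DirectSum.decompose (weightedHomogeneousSubmodule k w) f) e :
          MvPolynomial (Fin n) k) = weightedHomogeneousComponent w e f := by
      intro e f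
      exact weightedDecomposition.decompose'_apply k w f e
    rw [h6, h6, ← h4] at h5
    exact h5

/-- If the common zeros of homogeneous elements are in the centre, then the monomials of large weight
are homogeneous combinations of them. -/
theorem large_comb {J : Type} [Fintype J] (Δ : J → MvPolynomial (Fin n) k)
    (lam : ℕ) (hΔ : ∀ j, IsWeightedHomogeneous w (Δ j) lam)
    (hrad : ∀ s, 0 < w s → (X s : MvPolynomial (Fin n) k) ∈
      (Ideal.span (Set.range Δ)).radical) :
    ∃ M0 : ℕ, ∀ d, M0 ≤ d → ∀ f ∈ EI (X : Fin n → MvPolynomial (Fin n) k) w d,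
      f ∈ Ideal.span {y | ∃ j, ∃ g ∈ EI (X : Fin n → MvPolynomial (Fin n) k) w (d - lam),
        y = g * Δ j} := by
  classical
  have h1 : ∀ s, ∃ M, 0 < w s → (lam ≤ M ∧ (X s : MvPolynomial (Fin n) k) ^ M ∈
      Ideal.span (Set.range Δ)) := by
    intro s
    by_cases hws : 0 < w s
    · obtain ⟨M, hM⟩ := hrad s hws
      refine ⟨M + lam, fun _ => ⟨by omega, ?_⟩⟩
      rw [pow_add]
      exact Ideal.mul_mem_right _ _ hM
    · exact ⟨0, fun h => absurd h hws⟩
  choose M hM using h1
  refine ⟨∑ s, M s * w s + 1, fun d hd f hf => ?_⟩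
  unfold EI at hf
  refine (Ideal.span_le.2 ?_) hf
  rintro _ ⟨α, hα, rfl⟩
  obtain ⟨s, hws, hs⟩ : ∃ s, 0 < w s ∧ M s ≤ α s := by
    by_contra h
    push Not at h
    have h2 : ∑ i, α i * w i ≤ ∑ s, M s * w s := by
      refine Finset.sum_le_sum fun i _ => ?_
      rcases Nat.eq_zero_or_pos (w i) with h0 | h0
      · rw [h0, Nat.mul_zero, Nat.mul_zero]
      · exact Nat.mul_le_mul_right _ (h i h0).le
    omega
  have hle : lam ≤ M s * w s := (hM s hws).1.trans (Nat.le_mul_of_pos_right _ hws)
  obtain ⟨g, hg, hgs⟩ := pow_comb w Δ lam hΔ s (M s) hle (hM s hws).2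
  let β : Fin n → ℕ := Function.update α s (α s - M s)
  have h3 : (∏ i, (X i : MvPolynomial (Fin n) k) ^ α i) = (∏ i, X i ^ β i) * X s ^ M s := by
    rw [← Finset.mul_prod_erase Finset.univ _ (Finset.mem_univ s),
      ← Finset.mul_prod_erase Finset.univ (fun i => (X i : MvPolynomial (Fin n) k) ^ β i)
        (Finset.mem_univ s)]
    have h4 : ∏ i ∈ Finset.univ.erase s, (X i : MvPolynomial (Fin n) k) ^ β i =
        ∏ i ∈ Finset.univ.erase s, X i ^ α i := by
      refine Finset.prod_congr rfl fun i hi => ?_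
      have h5 : β i = α i := Function.update_of_ne (Finset.ne_of_mem_erase hi) _ _
      rw [h5]
    have h6 : β s = α s - M s := Function.update_self _ _ _
    rw [h4, h6]
    have h7 : (X s : MvPolynomial (Fin n) k) ^ α s = X s ^ (α s - M s) * X s ^ M s := by
      rw [← pow_add]
      congr 1
      omega
    rw [h7]
    ring
  have h8 : ∑ i, α i * w i = ∑ i, β i * w i + M s * w s := by
    rw [← Finset.add_sum_erase Finset.univ _ (Finset.mem_univ s),
      ← Finset.add_sum_erase Finset.univ (fun i => β i * w i) (Finset.mem_univ s)]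
    have h4 : ∑ i ∈ Finset.univ.erase s, β i * w i = ∑ i ∈ Finset.univ.erase s, α i * w i := by
      refine Finset.sum_congr rfl fun i hi => ?_
      have h5 : β i = α i := Function.update_of_ne (Finset.ne_of_mem_erase hi) _ _
      rw [h5]
    have h6 : β s = α s - M s := Function.update_self _ _ _
    rw [h4, h6]
    have h7 : α s * w s = (α s - M s) * w s + M s * w s := by
      rw [← add_mul]
      congr 1
      omega
    omega
  change (∏ i, (X i : MvPolynomial (Fin n) k) ^ α i) ∈ Ideal.span _
  rw [h3, hgs, Finset.mul_sum]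
  refine Ideal.sum_mem _ fun j _ => Ideal.subset_span ⟨j, (∏ i, X i ^ β i) * g j, ?_, by ring⟩
  have h9 := mul_mem_EI (X : Fin n → MvPolynomial (Fin n) k) w
    (mono_mem (X : Fin n → MvPolynomial (Fin n) k) w β le_rfl) (hg j)
  exact EI_anti _ w (by omega) h9

end hom

section rank

variable {k : Type u} [Field k] {n m : ℕ}

/-- Linearly independent vectors have a nonzero minor. -/
lemma exists_minor {K : Type u} [Field K] {N : ℕ} (V : Fin N → Fin m → K)
    (hV : LinearIndependent K V) : ∃ J : Fin N → Fin m,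
      (Matrix.of fun a b => V a (J b)).det ≠ 0 := by
  classical
  by_contra hcon
  push Not at hcon
  let f : (Fin N → K) →ₗ[K] (Fin m → K) := Fintype.linearCombination K V
  have hf : Function.Injective f := by
    exact linearIndependent_iff_injective_fintypeLinearCombination.1 hV
  obtain ⟨g, hg⟩ := f.exists_leftInverse_of_injective (LinearMap.ker_eq_bot.2 hf)
  have hgV : ∀ a b, ∑ t, V a t * g (Pi.single t 1) b = if a = b then 1 else 0 := by
    intro a b
    have h1 : f (Pi.single a 1) = V a := by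
      change Fintype.linearCombination K V (Pi.single a 1) = V a
      rw [Fintype.linearCombination_apply_single, one_smul]
    have h2 : g (V a) = Pi.single a 1 := by
      rw [← h1]
      exact LinearMap.congr_fun hg _
    have h3 : V a = ∑ t, V a t • Pi.single t (1 : K) := by
      ext t
      simp [Finset.sum_apply, Pi.single_apply]
    have h4 : g (V a) b = ∑ t, V a t * g (Pi.single t 1) b := by
      conv_lhs => rw [h3]
      rw [map_sum, Finset.sum_apply]
      refine Finset.sum_congr rfl fun t _ => ?_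
      rw [map_smul]
      rfl
    rw [← h4, h2, Pi.single_apply]
    by_cases hab : b = a
    · rw [if_pos hab, if_pos hab.symm]
    · rw [if_neg hab, if_neg (Ne.symm hab)]
  have h5 : Matrix.det (Matrix.of fun b a => ∑ t, V a t * g (Pi.single t 1) b) = 1 := by
    have h6 : (Matrix.of fun b a => ∑ t, V a t * g (Pi.single t 1) b) =
        (1 : Matrix (Fin N) (Fin N) K) := by
      ext b a
      rw [Matrix.of_apply, hgV, Matrix.one_apply]
      by_cases hab : b = a
      · rw [if_pos hab, if_pos hab.symm]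
      · rw [if_neg hab, if_neg (Ne.symm hab)]
    rw [h6, Matrix.det_one]
  have h7 : (fun b a => ∑ t, V a t * g (Pi.single t 1) b) =
      fun b => ∑ t, (g (Pi.single t 1) b) • (fun a => V a t) := by
    ext b a
    rw [Finset.sum_apply]
    exact Finset.sum_congr rfl fun t _ => by rw [Pi.smul_apply, smul_eq_mul, mul_comm]
  rw [h7] at h5
  have h8 : Matrix.det (Matrix.of fun b => ∑ t, (g (Pi.single t 1) b) • (fun a => V a t)) = 0 := by
    change Matrix.detRowAlternating (fun b => ∑ t, (g (Pi.single t 1) b) • (fun a => V a t)) = 0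
    have h9 := (Matrix.detRowAlternating (n := Fin N) (R := K)).toMultilinearMap.map_sum
      (fun (b : Fin N) (t : Fin m) => (g (Pi.single t 1) b) • (fun a => V a t))
    refine h9.trans (Finset.sum_eq_zero fun J _ => ?_)
    rw [MultilinearMap.map_smul_univ]
    have h10 := hcon J
    rw [← Matrix.det_transpose] at h10
    have h11 : (Matrix.detRowAlternating (n := Fin N) (R := K)).toMultilinearMap
        (fun b a => V a (J b)) = 0 := h10
    rw [h11, smul_zero]
  rw [h8] at h5
  exact zero_ne_one h5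

/-- The minors of a family of vectors of polynomials which is independent outside the centre have
no zeros outside the centre. -/
theorem minors_rad (w : Fin n → ℕ) {N : ℕ} (V : Fin N → Fin m → MvPolynomial (Fin n) k)
    (hV : ∀ (K : Type u) [Field K] [Algebra k K] (z : Fin n → K), (∃ i, 0 < w i ∧ z i ≠ 0) →
      LinearIndependent K (fun a t => aeval z (V a t))) (s : Fin n) (hws : 0 < w s) :
    (X s : MvPolynomial (Fin n) k) ∈ (Ideal.span (Set.range fun J : Fin N → Fin m =>
      (Matrix.of fun a b => V a (J b)).det)).radical := by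
  rw [Ideal.radical_eq_sInf, Ideal.mem_sInf]
  rintro P ⟨hle, hP⟩
  by_contra hs
  let K := FractionRing (MvPolynomial (Fin n) k ⧸ P)
  let z : Fin n → K := fun i => algebraMap _ K (Ideal.Quotient.mk P (X i))
  have hz : ∀ f : MvPolynomial (Fin n) k, aeval z f = algebraMap _ K (Ideal.Quotient.mk P f) := by
    intro f
    have h1 : (aeval z : MvPolynomial (Fin n) k →ₐ[k] K) =
        (IsScalarTower.toAlgHom k (MvPolynomial (Fin n) k ⧸ P) K).comp
          (Ideal.Quotient.mkₐ k P) := by
      apply MvPolynomial.algHom_ext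
      intro i
      rw [aeval_X]
      rfl
    rw [h1]
    rfl
  have hz0 : ∃ i, 0 < w i ∧ z i ≠ 0 := by
    refine ⟨s, hws, fun h => hs ?_⟩
    have h1 : algebraMap (MvPolynomial (Fin n) k ⧸ P) K (Ideal.Quotient.mk P (X s)) = 0 := h
    rw [IsFractionRing.to_map_eq_zero_iff] at h1
    exact Ideal.Quotient.eq_zero_iff_mem.1 h1
  obtain ⟨J, hJ⟩ := exists_minor _ (hV K z hz0)
  apply hJ
  have h2 : (Matrix.of fun a b => V a (J b)).det ∈ P := hle (Ideal.subset_span ⟨J, rfl⟩)
  have h3 : (aeval z : MvPolynomial (Fin n) k →ₐ[k] K) (Matrix.of fun a b => V a (J b)).det =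
      (Matrix.of fun a b => aeval z (V a (J b))).det := by
    rw [← AlgHom.coe_toRingHom, RingHom.map_det]
    rfl
  rw [← h3, hz, Ideal.Quotient.eq_zero_iff_mem.2 h2, map_zero]

end rank

end Pool.Agent.H519R3.RE
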