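import Pool.Agent.H519R3.RE.X1

set_option autoImplicit false
set_option linter.unusedSectionVars false

open MvPolynomial Pool.Agent.H920R2 Pool.Agent.H519R3.RS

universe u v

namespace Pool.Agent.H519R3.RE

section good

variable {k : Type u} [Field k] {n m : ℕ} (w : Fin n → ℕ)

/-- The first coordinates. -/
noncomputable def xs (k : Type u) [Field k] (n m : ℕ) :
    Fin n → MvPolynomial (Fin n ⊕ Fin m) k := fun i => X (Sum.inl i)

/-- The weighted filtration of the polynomial ring is good. -/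
theorem good_B : Good k (isFilt_EI (xs k n m) w) := by
  let B := MvPolynomial (Fin n ⊕ Fin m) k
  let L := FractionRing B
  let g : B →ₐ[k] L := IsScalarTower.toAlgHom k B L
  have hinj : Function.Injective g := IsFractionRing.injective B L
  let w' : Fin n ⊕ Fin m → ℕ := Sum.elim w (fun _ => 0)
  let hF := isFilt_EI (xs k n m) w
  let R := rwA g w' (X : Fin n ⊕ Fin m → B)
  have hs : hm (-1) 1 ∈ R := rwA_s g w' _
  have hb : ∀ b, hm 0 (g b) ∈ R := rwA_b g w' _
  have hx : ∀ i : Fin n, hm (w i) (g (xs k n m i)) ∈ R := fun i => rwA_x g w' _ (Sum.inl i)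
  have key : ∀ e : ℕ, ∀ b ∈ EI (xs k n m) w e, hm (e : ℤ) (g b) ∈ R := by
    intro e b hb'
    unfold EI at hb'
    induction hb' using Submodule.span_induction with
    | mem y hy =>
      obtain ⟨α, hα, rfl⟩ := hy
      have h1 : ∀ s : Finset (Fin n), hm ((∑ i ∈ s, α i * w i : ℕ) : ℤ)
          (g (∏ i ∈ s, xs k n m i ^ α i)) ∈ R := by
        classical
        intro s
        induction s using Finset.induction_on with
        | empty =>
          rw [Finset.sum_empty, Finset.prod_empty]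
          exact hb 1
        | insert a s ha ih =>
          rw [Finset.sum_insert ha, Finset.prod_insert ha, map_mul, map_pow]
          have h2 := R.mul_mem (R.pow_mem (hx a) (α a)) ih
          rw [hm_pow, hm_mul] at h2
          push_cast at h2 ⊢
          exact h2
      have h2 := R.mul_mem (R.pow_mem hs (∑ i, α i * w i - e)) (h1 Finset.univ)
      rw [hm_pow, hm_mul, one_pow, one_mul] at h2
      have h3 : (((∑ i, α i * w i - e : ℕ) : ℤ) * -1 + ((∑ i, α i * w i : ℕ) : ℤ)) = (e : ℤ) := by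
        omega
      rw [h3] at h2
      exact h2
    | zero =>
      rw [map_zero]
      have h1 : hm (e : ℤ) (0 : L) = 0 := by
        have h2 := hm_mul (e : ℤ) 0 (0 : L) 0
        apply AddMonoidAlgebra.ext
        ext d
        rw [coeff_hm]
        split_ifs <;> rfl
      rw [h1]
      exact R.zero_mem
    | add y z _ _ hy hz =>
      have h1 : hm (e : ℤ) (g (y + z)) = hm (e : ℤ) (g y) + hm (e : ℤ) (g z) := by
        rw [map_add]
        exact AddMonoidAlgebra.single_add ..
      rw [h1]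
      exact R.add_mem hy hz
    | smul c y _ hy =>
      have h1 := R.mul_mem (hb c) hy
      rw [hm_mul, zero_add, ← map_mul] at h1
      exact h1
  have heq : rG g hF = R := by
    apply le_antisymm
    · intro f hf
      rw [eq_sum_hm f]
      refine Subalgebra.sum_mem _ fun d _ => ?_
      obtain ⟨b, hb1, hb'⟩ := hf d
      rw [← hb']
      rcases le_or_gt 0 d with h | h
      · have h1 := key d.toNat b hb1
        rwa [Int.toNat_of_nonneg h] at h1
      · have h1 := R.mul_mem (R.pow_mem hs d.natAbs) (hb b)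
        rw [hm_pow, hm_mul, one_pow, one_mul] at h1
        have h2 : ((d.natAbs : ℤ) * -1 + 0) = d := by omega
        rwa [h2] at h1
    · change rwA g w' (X : Fin n ⊕ Fin m → B) ≤ _
      unfold rwA
      rw [Algebra.adjoin_le_iff]
      rintro f ((hf | ⟨b, rfl⟩) | ⟨i, rfl⟩)
      · rw [hf]; exact s_rG g hF
      · exact b_rG g hF b
      · rcases i with i | t
        · refine hm_mem_rG g hF ?_
          rw [Int.toNat_natCast]
          have h1 := mono_mem (xs k n m) w (d := w i) (Pi.single i 1) (by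
            rw [Finset.sum_eq_single i]
            · simp
            · intro j _ hj
              rw [Pi.single_eq_of_ne hj, zero_mul]
            · intro h
              exact absurd (Finset.mem_univ i) h)
          have h2 : ∏ j, xs k n m j ^ (Pi.single i 1 : Fin n → ℕ) j = X (Sum.inl i) := by
            rw [Finset.prod_eq_single i]
            · rw [Pi.single_eq_same, pow_one]; rfl
            · intro j _ hj
              rw [Pi.single_eq_of_ne hj, pow_zero]
            · intro h
              exact absurd (Finset.mem_univ i) h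
          rwa [h2] at h1
        · exact b_rG g hF (X (Sum.inr t))
  have hsm : Algebra.Smooth k (rG g hF) := by
    rw [heq]
    refine smooth_rwA g w' hinj ?_
    have h1 : (aeval (X : Fin n ⊕ Fin m → B) : B →ₐ[k] B) = AlgHom.id k B := aeval_X_left
    rw [h1]
    exact RingHom.Etale.of_bijective Function.bijective_id
  refine (good_iff g hF hinj).2 ⟨inferInstance, ?_⟩
  intro e η he he0 hη
  exact smooth_loc hsm _ (isUnit_hm hη)

lemma one_ne_bot (hw : ∃ i, 0 < w i) : EI (xs k n m) w 1 ≠ ⊥ := by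
  intro h
  obtain ⟨s, hs⟩ := hw
  have h1 := mono_mem (xs k n m) w (d := 1) (fun _ => 1) (by
    have h2 := Finset.single_le_sum (f := fun i => 1 * w i) (fun i _ => Nat.zero_le _)
      (Finset.mem_univ s)
    omega)
  rw [h, Ideal.mem_bot, Finset.prod_eq_zero_iff] at h1
  obtain ⟨i, _, hi⟩ := h1
  rw [pow_one] at hi
  exact X_ne_zero _ hi

end good

section core

variable {k : Type u} [Field k] {n : ℕ} (w : Fin n → ℕ)

/-- The two conditions on the zeros, from elements with prescribed images. -/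
theorem step_core {B : Type u} [CommRing B] [Algebra k B] (F : ℕ → Ideal B) (C : Subalgebra k B)
    (δ : C → C) (l μ q : ℕ) (hq : 0 < q)
    (ι : MvPolynomial (Fin n) k →ₐ[k] C)
    (hιF : ∀ d f, f ∈ EI (X : Fin n → MvPolynomial (Fin n) k) w d → ι f ∈ restr F C d)
    (hpow : ∀ d, ∀ a ∈ restr F C d, a ^ q ∈ EI (fun i => ι (X i)) w (q * d))
    {J : Type} [Fintype J] (Δ : J → MvPolynomial (Fin n) k)
    (hΔ : ∀ j, IsWeightedHomogeneous w (Δ j) (μ + l))
    (hrad : ∀ s, 0 < w s → (X s : MvPolynomial (Fin n) k) ∈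
      (Ideal.span (Set.range Δ)).radical)
    (hc : ∀ j, ∃ c ∈ restr F C μ, δ c = ι (Δ j)) :
    (∀ P : Ideal C, P.IsPrime → (∀ a, δ a ∈ P) → restr F C 1 ≤ P) ∧
    (∀ d, 1 ≤ d → ∀ a ∈ restr F C d, ∃ N : ℕ, a ^ N ∈ leadI δ (restr F C) l (N * d)) := by
  obtain ⟨M0, hM0⟩ := large_comb w Δ (μ + l) hΔ hrad
  have key : ∀ e, M0 ≤ e → EI (fun i => ι (X i)) w e ≤
      Ideal.span {y | ∃ j, ∃ g ∈ EI (X : Fin n → MvPolynomial (Fin n) k) w (e - (μ + l)),
        y = ι g * ι (Δ j)} := by
    intro e he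
    conv_lhs => unfold EI
    rw [Ideal.span_le]
    rintro _ ⟨α, hα, rfl⟩
    have h1 := hM0 e he _ (mono_mem (X : Fin n → MvPolynomial (Fin n) k) w α hα)
    have h2 := Ideal.mem_map_of_mem ι h1
    rw [Ideal.map_span, map_prod] at h2
    simp only [map_pow] at h2
    refine Ideal.span_mono ?_ h2
    rintro _ ⟨_, ⟨j, g, hg, rfl⟩, rfl⟩
    exact ⟨j, g, hg, map_mul ι _ _⟩
  have key2 : ∀ d, 1 ≤ d → ∀ a ∈ restr F C d, a ^ (q * (M0 + 1)) ∈
      Ideal.span {y | ∃ j, ∃ g ∈ EI (X : Fin n → MvPolynomial (Fin n) k) w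
        ((q * (M0 + 1)) * d - (μ + l)), y = ι g * ι (Δ j)} := by
    intro d hd a ha
    have h1 := pow_mem_EI _ w (hpow d a ha) (M0 + 1)
    have h2 : (M0 + 1) * (q * d) = (q * (M0 + 1)) * d := by ring
    rw [← pow_mul, h2] at h1
    refine key _ ?_ h1
    have h3 : M0 + 1 ≤ q * (M0 + 1) := Nat.le_mul_of_pos_left _ hq
    have h4 : q * (M0 + 1) ≤ q * (M0 + 1) * d := Nat.le_mul_of_pos_right _ hd
    omega
  constructor
  · intro P hP hδ a ha
    refine hP.mem_of_pow_mem _ ((Ideal.span_le.2 ?_) (key2 1 le_rfl a ha))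
    rintro _ ⟨j, g, hg, rfl⟩
    obtain ⟨c, _, hc'⟩ := hc j
    rw [← hc']
    exact P.mul_mem_left _ (hδ c)
  · intro d hd a ha
    refine ⟨q * (M0 + 1), ?_⟩
    unfold leadI
    refine Ideal.mem_sup_right ((Ideal.span_mono ?_) (key2 d hd a ha))
    rintro _ ⟨j, g, hg, rfl⟩
    obtain ⟨c, hcF, hc'⟩ := hc j
    exact ⟨μ, c, hcF, ι g, hιF _ _ hg, by rw [hc']⟩

end core

section cof

variable {k : Type u} [Field k] {n m r : ℕ} (w : Fin n → ℕ)
  (v : Fin r → Fin m → MvPolynomial (Fin n) k)

/-- The cofactors of the last row. -/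
noncomputable def cof {i : ℕ} (hi : i < r) (J : Fin (i + 1) → Fin m) (b : Fin (i + 1)) :
    MvPolynomial (Fin n) k :=
  (-1) ^ (i + b : ℕ) *
    (Matrix.of fun a' b' : Fin i => v ⟨a', by omega⟩ (J (b.succAbove b'))).det

/-- The minors. -/
noncomputable def mnr {i : ℕ} (hi : i < r) (J : Fin (i + 1) → Fin m) : MvPolynomial (Fin n) k :=
  (Matrix.of fun a b : Fin (i + 1) => v ⟨a, by omega⟩ (J b)).det

lemma sum_cof {i : ℕ} (hi : i < r) (J : Fin (i + 1) → Fin m)
    (u : Fin m → MvPolynomial (Fin n) k) :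
    ∑ b, cof v hi J b * u (J b) = (Matrix.of fun a b : Fin (i + 1) =>
      (Fin.snoc (fun a' : Fin i => v ⟨a', by omega⟩) u :
        Fin (i + 1) → Fin m → MvPolynomial (Fin n) k) a (J b)).det := by
  rw [Matrix.det_succ_row _ (Fin.last i)]
  refine Finset.sum_congr rfl fun b _ => ?_
  unfold cof
  rw [Matrix.of_apply, Fin.snoc_last, Fin.val_last]
  have h1 : (Matrix.of fun a b : Fin (i + 1) =>
      (Fin.snoc (fun a' : Fin i => v ⟨a', by omega⟩) u :
        Fin (i + 1) → Fin m → MvPolynomial (Fin n) k) a (J b)).submatrix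
        (Fin.last i).succAbove b.succAbove =
      Matrix.of fun a' b' : Fin i => v ⟨a', by omega⟩ (J (b.succAbove b')) := by
    ext1 a' b'
    rw [Matrix.submatrix_apply, Matrix.of_apply, Matrix.of_apply, Fin.succAbove_last,
      Fin.snoc_castSucc]
  rw [h1]
  ring

lemma sum_cof_lt {i : ℕ} (hi : i < r) (J : Fin (i + 1) → Fin m) (j : Fin r) (hj : (j : ℕ) < i) :
    ∑ b, cof v hi J b * v j (J b) = 0 := by
  rw [sum_cof]
  refine Matrix.det_zero_of_row_eq (i := Fin.castSucc ⟨j, hj⟩) (j := Fin.last i) ?_ ?_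
  · exact (Fin.castSucc_lt_last _).ne
  · ext1 b
    rw [Matrix.of_apply, Matrix.of_apply, Fin.snoc_last, Fin.snoc_castSucc]

lemma sum_cof_eq {i : ℕ} (hi : i < r) (J : Fin (i + 1) → Fin m) :
    ∑ b, cof v hi J b * v ⟨i, hi⟩ (J b) = mnr v hi J := by
  rw [sum_cof]
  unfold mnr
  congr 1
  ext1 a b
  rw [Matrix.of_apply, Matrix.of_apply]
  refine Fin.lastCases ?_ (fun a' => ?_) a
  · rw [Fin.snoc_last]
    rfl
  · rw [Fin.snoc_castSucc]
    rfl

variable (l : Fin r → ℕ) (hv : ∀ j t, IsWeightedHomogeneous w (v j t) (l j))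

include hv in
lemma hom_cof {i : ℕ} (hi : i < r) (J : Fin (i + 1) → Fin m) (b : Fin (i + 1)) :
    IsWeightedHomogeneous w (cof v hi J b) (∑ a' : Fin i, l ⟨a', by omega⟩) := by
  unfold cof
  have h1 := hom_det w (Matrix.of fun a' b' : Fin i => v ⟨a', by omega⟩ (J (b.succAbove b')))
    (fun a' => l ⟨a', by omega⟩) (fun a' b' => hv _ _)
  rcases neg_one_pow_eq_or (MvPolynomial (Fin n) k) (i + b : ℕ) with h | h
  · rw [h, one_mul]
    exact h1
  · rw [h, neg_one_mul]
    exact h1.neg

include hv in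
lemma hom_mnr {i : ℕ} (hi : i < r) (J : Fin (i + 1) → Fin m) :
    IsWeightedHomogeneous w (mnr v hi J) (∑ a' : Fin i, l ⟨a', by omega⟩ + l ⟨i, hi⟩) := by
  have h1 := hom_det w (Matrix.of fun a b : Fin (i + 1) => v ⟨a, by omega⟩ (J b))
    (fun a => l ⟨a, by omega⟩) (fun a b => hv _ _)
  rw [Fin.sum_univ_castSucc] at h1
  exact h1

end cof

end Pool.Agent.H519R3.RE
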