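import Pool.Agent.H519R3.RE.X2
import Pool.Agent.H920R2.Fol6

set_option autoImplicit false
set_option linter.unusedSectionVars false

open MvPolynomial AlgebraicGeometry CategoryTheory Pool.Agent.H920R2 Pool.Agent.H519R3.RS

universe u v

namespace Pool.Agent.H519R3.RE

section vf

variable {k : Type u} [Field k] {n m : ℕ}

/-- The vector field `∑ t, v t * ∂/∂(Y t)` on the affine space with the coordinates `X i`, `Y t`,
where the `v t` are polynomials in the `X i`. -/
noncomputable def vf (v : Fin m → MvPolynomial (Fin n) k) :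
    Derivation k (MvPolynomial (Fin n ⊕ Fin m) k) (MvPolynomial (Fin n ⊕ Fin m) k) :=
  mkDerivation k (Sum.elim (fun _ => 0) fun t => rename Sum.inl (v t))

variable (v : Fin m → MvPolynomial (Fin n) k)

lemma vf_inl (i : Fin n) : vf v (X (Sum.inl i)) = 0 := by
  unfold vf; rw [mkDerivation_X]; rfl

lemma vf_inr (t : Fin m) : vf v (X (Sum.inr t)) = rename Sum.inl (v t) := by
  unfold vf; rw [mkDerivation_X]; rfl

lemma vf_ren (f : MvPolynomial (Fin n) k) : vf v (rename Sum.inl f) = 0 := by
  induction f using MvPolynomial.induction_on with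
  | C a =>
    rw [rename_C]
    exact (vf v).map_algebraMap a
  | add p q hp hq => rw [map_add, map_add, hp, hq, add_zero]
  | mul_X p i hp => rw [map_mul, Derivation.leibniz, hp, rename_X, vf_inl, smul_zero, smul_zero,
      add_zero]

lemma ren_EI (w : Fin n → ℕ) {d : ℕ} {f : MvPolynomial (Fin n) k}
    (hf : f ∈ EI (X : Fin n → MvPolynomial (Fin n) k) w d) :
    rename Sum.inl f ∈ EI (xs k n m) w d := by
  have h1 := map_mem_EI _ w (rename (R := k) (Sum.inl : Fin n → Fin n ⊕ Fin m)).toRingHom hf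
  have h2 : (fun i => (rename (R := k) (Sum.inl : Fin n → Fin n ⊕ Fin m)).toRingHom (X i)) =
      xs k n m := by
    ext1 i
    exact rename_X _ _
  rw [h2] at h1
  exact h1

lemma vf_mem (w : Fin n → ℕ) (l : ℕ) (hv : ∀ t, v t ∈ EI (X : Fin n → MvPolynomial (Fin n) k) w l)
    (b : MvPolynomial (Fin n ⊕ Fin m) k) : vf v b ∈ EI (xs k n m) w l := by
  induction b using MvPolynomial.induction_on with
  | C a =>
    rw [← MvPolynomial.algebraMap_eq, (vf v).map_algebraMap]
    exact Ideal.zero_mem _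
  | add p q hp hq => rw [map_add]; exact Ideal.add_mem _ hp hq
  | mul_X p i hp =>
    rw [Derivation.leibniz, smul_eq_mul, smul_eq_mul]
    refine Ideal.add_mem _ (Ideal.mul_mem_left _ _ ?_) (Ideal.mul_mem_left _ _ hp)
    rcases i with i | t
    · rw [vf_inl]; exact Ideal.zero_mem _
    · rw [vf_inr]; exact ren_EI w (hv t)

lemma mono_ren (α : Fin n → ℕ) : ∏ i, xs k n m i ^ α i =
    rename Sum.inl (∏ i, (X i : MvPolynomial (Fin n) k) ^ α i) := by
  rw [map_prod]
  exact Finset.prod_congr rfl fun i _ => by rw [map_pow, rename_X]; rfl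

lemma vf_div (w : Fin n → ℕ) (l : ℕ) (hv : ∀ t, v t ∈ EI (X : Fin n → MvPolynomial (Fin n) k) w l)
    (d : ℕ) (b : MvPolynomial (Fin n ⊕ Fin m) k) (hb : b ∈ EI (xs k n m) w d) :
    vf v b ∈ EI (xs k n m) w (d + l) := by
  have hb2 := hb
  unfold EI at hb2
  induction hb2 using Submodule.span_induction with
  | mem y hy =>
    obtain ⟨α, hα, rfl⟩ := hy
    rw [mono_ren, vf_ren]
    exact Ideal.zero_mem _
  | zero => rw [map_zero]; exact Ideal.zero_mem _
  | add y z hy' hz' hy hz => rw [map_add]; exact Ideal.add_mem _ (hy hy') (hz hz')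
  | smul c y hy' hy =>
    rw [smul_eq_mul, Derivation.leibniz, smul_eq_mul, smul_eq_mul]
    exact Ideal.add_mem _ (Ideal.mul_mem_left _ _ (hy hy'))
      (mul_mem_EI _ w hy' (vf_mem v w l hv c))

lemma vf_comm (v' : Fin m → MvPolynomial (Fin n) k) (b : MvPolynomial (Fin n ⊕ Fin m) k) :
    vf v (vf v' b) = vf v' (vf v b) := by
  have h1 : ⁅vf v, vf v'⁆ = 0 := by
    apply MvPolynomial.derivation_ext
    intro i
    rw [Derivation.commutator_apply]
    rcases i with i | t
    · rw [vf_inl, vf_inl, map_zero, map_zero, sub_zero]; rfl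
    · rw [vf_inr, vf_inr, vf_ren, vf_ren, sub_zero]; rfl
  have h2 := congrArg (fun D : Derivation k _ _ => D b) h1
  simp only [Derivation.commutator_apply] at h2
  exact sub_eq_zero.1 h2

lemma vf_iter {p : ℕ} (hp : p.Prime) (hpk : (p : k) = 0) (b : MvPolynomial (Fin n ⊕ Fin m) k) :
    (vf v)^[p] b = 0 := by
  have h0 : ∀ j, 2 ≤ j → ∀ i, (vf v)^[j] (X i) = 0 := by
    intro j hj i
    obtain ⟨j', rfl⟩ : ∃ j', j = j' + 2 := ⟨j - 2, by omega⟩
    rw [Function.iterate_add_apply]
    have h1 : (vf v)^[2] (X i) = 0 := by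
      change vf v (vf v (X i)) = 0
      rcases i with i | t
      · rw [vf_inl, map_zero]
      · rw [vf_inr, vf_ren]
    rw [h1]
    exact Function.iterate_fixed (map_zero _) _
  induction b using MvPolynomial.induction_on with
  | C a =>
    obtain ⟨p', rfl⟩ : ∃ p', p = p' + 1 := ⟨p - 1, by have := hp.pos; omega⟩
    rw [Function.iterate_succ_apply]
    have h1 : vf v (C a) = 0 := (vf v).map_algebraMap a
    rw [h1]
    exact Function.iterate_fixed (map_zero _) _
  | add f g hf hg =>
    rw [iterate_map_add, hf, hg, add_zero]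
  | mul_X f i hf =>
    have h1 := iterate_p_mul hp hpk (vf v) f (X i)
    rw [h1, hf, h0 p hp.two_le i]
    ring

end vf

end Pool.Agent.H519R3.RE
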