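import Pool.Agent.H519R3.RE.X3
import Pool.Agent.H920R2.Up2

set_option autoImplicit false
set_option linter.unusedSectionVars false

open MvPolynomial AlgebraicGeometry CategoryTheory Pool.Agent.H920R2 Pool.Agent.H519R3.RS

universe u v

namespace Pool.Agent.H519R3.RE

section norm

variable {S : Type u} [CommRing S] {n : ℕ} (w : Fin n → ℕ)

lemma supp_EI {d : ℕ} {P : MvPolynomial (Fin n) S}
    (hP : P ∈ EI (X : Fin n → MvPolynomial (Fin n) S) w d) :
    ∀ β ∈ P.support, d ≤ ∑ i, β i * w i := by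
  classical
  unfold EI at hP
  induction hP using Submodule.span_induction with
  | mem y hy =>
    obtain ⟨α, hα, rfl⟩ := hy
    intro β hβ
    have h1 : (∏ i, (X i : MvPolynomial (Fin n) S) ^ α i) =
        monomial (Finsupp.equivFunOnFinite.symm α) 1 := by
      rw [monomial_eq, C_1, one_mul, Finsupp.prod_fintype _ _ (fun i => pow_zero _)]
      rfl
    rw [h1] at hβ
    have h2 := support_monomial_subset hβ
    rw [Finset.mem_singleton] at h2
    rw [h2]
    exact hα
  | zero => intro β hβ; simp at hβ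
  | add y z _ _ hy hz =>
    intro β hβ
    rcases Finset.mem_union.1 (support_add hβ) with h | h
    · exact hy β h
    · exact hz β h
  | smul c y _ hy =>
    intro β hβ
    have h1 := support_mul c y hβ
    obtain ⟨a, ha, b, hb, hab⟩ := Finset.mem_add.1 h1
    have h2 := hy b hb
    have h3 : ∑ i, β i * w i = ∑ i, a i * w i + ∑ i, b i * w i := by
      rw [← hab, ← Finset.sum_add_distrib]
      exact Finset.sum_congr rfl fun i _ => by rw [Finsupp.add_apply, add_mul]
    omega

lemma exists_poly {x : Fin n → S} {d : ℕ} {a : S} (ha : a ∈ EI x w d) :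
    ∃ P ∈ EI (X : Fin n → MvPolynomial (Fin n) S) w d, eval x P = a := by
  unfold EI at ha
  induction ha using Submodule.span_induction with
  | mem y hy =>
    obtain ⟨α, hα, rfl⟩ := hy
    refine ⟨∏ i, X i ^ α i, mono_mem _ w α hα, ?_⟩
    rw [map_prod]
    exact Finset.prod_congr rfl fun i _ => by rw [map_pow, eval_X]
  | zero => exact ⟨0, Ideal.zero_mem _, map_zero _⟩
  | add y z _ _ hy hz =>
    obtain ⟨P, hP, rfl⟩ := hy
    obtain ⟨Q, hQ, rfl⟩ := hz
    exact ⟨P + Q, Ideal.add_mem _ hP hQ, map_add _ _ _⟩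
  | smul c y _ hy =>
    obtain ⟨P, hP, rfl⟩ := hy
    exact ⟨C c * P, Ideal.mul_mem_left _ _ hP, by rw [map_mul, eval_C, smul_eq_mul]⟩

/-- The norm of an element of a weighted ideal. -/
theorem norm_mem {k : Type u} [Field k] [Algebra k S] [IsDomain S] {p : ℕ} (σ : S ≃ₐ[k] S)
    (hσ : ∀ b, σ^[p] b = b) (x : Fin n → S) (hx : ∀ i, σ (x i) = x i) {d : ℕ} {a : S}
    (ha : a ∈ EI x w d) (haσ : σ a = a) :
    ∃ N : MvPolynomial (Fin n) S, (∀ β ∈ N.support, p * d ≤ ∑ i, β i * w i) ∧
      (∀ β, σ (coeff β N) = coeff β N) ∧ eval x N = a ^ p := by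
  obtain ⟨P, hP, hPa⟩ := exists_poly w ha
  let T : MvPolynomial (Fin n) S ≃ₐ[k] MvPolynomial (Fin n) S := mapAlgEquiv (Fin n) σ
  have hT : ∀ Q, T Q = map (σ : S →+* S) Q := fun Q => mapAlgEquiv_apply _ _ _
  have hTc : ∀ Q β, coeff β (T Q) = σ (coeff β Q) := by
    intro Q β
    rw [hT, coeff_map]
    rfl
  have hTi : ∀ (j : ℕ) (Q β), coeff β (T^[j] Q) = σ^[j] (coeff β Q) := by
    intro j
    induction j with
    | zero => intro Q β; rfl
    | succ j ih =>
      intro Q β
      rw [Function.iterate_succ_apply, Function.iterate_succ_apply, ih, hTc]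
  have hTp : ∀ Q, T^[p] Q = Q := by
    intro Q
    ext β
    rw [hTi, hσ]
  have hTE : ∀ Q ∈ EI (X : Fin n → MvPolynomial (Fin n) S) w d,
      T Q ∈ EI (X : Fin n → MvPolynomial (Fin n) S) w d := by
    intro Q hQ
    have h1 := map_mem_EI _ w (map (σ : S →+* S) :
      MvPolynomial (Fin n) S →+* MvPolynomial (Fin n) S) hQ
    have h2 : (fun i => map (σ : S →+* S) (X i : MvPolynomial (Fin n) S)) = X := by
      ext1 i
      rw [map_X]
    rw [h2] at h1
    rw [hT]
    exact h1
  have hTEi : ∀ j : ℕ, T^[j] P ∈ EI (X : Fin n → MvPolynomial (Fin n) S) w d := by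
    intro j
    induction j with
    | zero => exact hP
    | succ j ih => rw [Function.iterate_succ_apply']; exact hTE _ ih
  have hprod : ∀ j : ℕ, ∏ i ∈ Finset.range j, T^[i] P ∈
      EI (X : Fin n → MvPolynomial (Fin n) S) w (j * d) := by
    intro j
    induction j with
    | zero => rw [Nat.zero_mul, EI_zero]; trivial
    | succ j ih =>
      rw [Finset.prod_range_succ, Nat.succ_mul]
      exact mul_mem_EI _ w ih (hTEi j)
  have hev : ∀ Q, eval x (T Q) = σ (eval x Q) := by
    intro Q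
    have h1 := map_eval (σ : S →+* S) x Q
    have h2 : (σ : S →+* S) ∘ x = x := by
      ext1 i
      exact hx i
    rw [h2] at h1
    rw [hT]
    exact h1.symm
  have hevi : ∀ j : ℕ, eval x (T^[j] P) = a := by
    intro j
    induction j with
    | zero => exact hPa
    | succ j ih => rw [Function.iterate_succ_apply', hev, ih, haσ]
  refine ⟨nrm T p P, supp_EI w (hprod p), ?_, ?_⟩
  · intro β
    rw [← hTc, map_nrm T p hTp P]
  · unfold nrm
    rw [map_prod, Finset.prod_congr rfl fun i _ => hevi i, Finset.prod_const, Finset.card_range]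

end norm

section resAut

variable {k B : Type u} [Field k] [CommRing B] [Algebra k B]

lemma iter_mem (f : B →ₐ[k] B) (C : Subalgebra k B) (h : ∀ b ∈ C, f b ∈ C) (j : ℕ) (b : B)
    (hb : b ∈ C) : f^[j] b ∈ C := by
  induction j with
  | zero => exact hb
  | succ j ih => rw [Function.iterate_succ_apply']; exact h _ ih

/-- The restriction of an automorphism of finite order to a subalgebra. -/
noncomputable def resAut (f : B →ₐ[k] B) (p : ℕ) (hp : 0 < p) (hf : ∀ b, f^[p] b = b)
    (C : Subalgebra k B) (h : ∀ b ∈ C, f b ∈ C) : C ≃ₐ[k] C :=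
  AlgEquiv.ofBijective ((f.comp C.val).codRestrict C fun c => h c c.2) (by
    obtain ⟨p', rfl⟩ : ∃ p', p = p' + 1 := ⟨p - 1, by omega⟩
    constructor
    · intro a b hab
      have h1 : f a = f b := congrArg Subtype.val hab
      apply Subtype.ext
      rw [← hf a, ← hf b, Function.iterate_succ_apply, Function.iterate_succ_apply, h1]
    · intro c
      refine ⟨⟨f^[p'] c, iter_mem f C h p' c c.2⟩, Subtype.ext ?_⟩
      have h1 : f (f^[p'] (c : B)) = c := (Function.iterate_succ_apply' f p' (c : B)).symm.trans (hf c)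
      exact h1)

lemma coe_resAut (f : B →ₐ[k] B) (p : ℕ) (hp : 0 < p) (hf : ∀ b, f^[p] b = b)
    (C : Subalgebra k B) (h : ∀ b ∈ C, f b ∈ C) (c : C) : (resAut f p hp hf C h c : B) = f c := rfl

lemma coe_iter_resAut (f : B →ₐ[k] B) (p : ℕ) (hp : 0 < p) (hf : ∀ b, f^[p] b = b)
    (C : Subalgebra k B) (h : ∀ b ∈ C, f b ∈ C) (j : ℕ) (c : C) :
    ((resAut f p hp hf C h)^[j] c : B) = f^[j] c := by
  induction j generalizing c with
  | zero => rfl
  | succ j ih => rw [Function.iterate_succ_apply, Function.iterate_succ_apply, ih]; rfl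

end resAut

section tau

variable {k : Type u} [Field k] {n m : ℕ}

/-- The substitution `Y t ↦ Y t + v t`, where the `v t` are polynomials in the `X i`. -/
noncomputable def tau (v : Fin m → MvPolynomial (Fin n) k) :
    MvPolynomial (Fin n ⊕ Fin m) k →ₐ[k] MvPolynomial (Fin n ⊕ Fin m) k :=
  aeval (Sum.elim (fun i => X (Sum.inl i)) fun t => X (Sum.inr t) + rename Sum.inl (v t))

variable (v : Fin m → MvPolynomial (Fin n) k)

lemma tau_inl (i : Fin n) : tau v (X (Sum.inl i)) = X (Sum.inl i) := by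
  unfold tau; rw [aeval_X]; rfl

lemma tau_inr (t : Fin m) : tau v (X (Sum.inr t)) = X (Sum.inr t) + rename Sum.inl (v t) := by
  unfold tau; rw [aeval_X]; rfl

lemma tau_ren (f : MvPolynomial (Fin n) k) : tau v (rename Sum.inl f) = rename Sum.inl f := by
  induction f using MvPolynomial.induction_on with
  | C a =>
    rw [rename_C]
    exact (tau v).commutes a
  | add p q hp hq => rw [map_add, map_add, hp, hq]
  | mul_X p i hp => rw [map_mul, map_mul, hp, rename_X, tau_inl]

lemma tau_tau (v' : Fin m → MvPolynomial (Fin n) k) (b : MvPolynomial (Fin n ⊕ Fin m) k) :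
    tau v (tau v' b) = tau (v + v') b := by
  have h1 : (tau v).comp (tau v') = tau (v + v') := by
    apply MvPolynomial.algHom_ext
    intro i
    rw [AlgHom.comp_apply]
    rcases i with i | t
    · rw [tau_inl, tau_inl, tau_inl]
    · rw [tau_inr, map_add, tau_inr, tau_ren, tau_inr, Pi.add_apply, map_add, add_assoc]
  rw [← h1]
  rfl

lemma tau_zero (b : MvPolynomial (Fin n ⊕ Fin m) k) :
    tau (0 : Fin m → MvPolynomial (Fin n) k) b = b := by
  have h1 : tau (0 : Fin m → MvPolynomial (Fin n) k) = AlgHom.id k _ := by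
    apply MvPolynomial.algHom_ext
    intro i
    rcases i with i | t
    · rw [tau_inl]; rfl
    · rw [tau_inr, Pi.zero_apply, map_zero, add_zero]; rfl
  rw [h1]
  rfl

lemma tau_iter (j : ℕ) (b : MvPolynomial (Fin n ⊕ Fin m) k) : (tau v)^[j] b = tau (j • v) b := by
  induction j with
  | zero => rw [zero_smul, tau_zero]; rfl
  | succ j ih => rw [Function.iterate_succ_apply', ih, tau_tau, succ_nsmul, add_comm]

lemma tau_p {p : ℕ} (hpk : (p : k) = 0) (b : MvPolynomial (Fin n ⊕ Fin m) k) :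
    (tau v)^[p] b = b := by
  have h1 : p • v = 0 := by
    ext1 t
    rw [Pi.smul_apply, nsmul_eq_mul, ← map_natCast (algebraMap k (MvPolynomial (Fin n) k)), hpk,
      map_zero, zero_mul]
    rfl
  rw [tau_iter, h1, tau_zero]

lemma tau_mem (w : Fin n → ℕ) (l : ℕ) (hv : ∀ t, v t ∈ EI (X : Fin n → MvPolynomial (Fin n) k) w l)
    (b : MvPolynomial (Fin n ⊕ Fin m) k) : tau v b - b ∈ EI (xs k n m) w l := by
  induction b using MvPolynomial.induction_on with
  | C a =>
    have h1 : tau v (C a) = C a := (tau v).commutes a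
    rw [h1, sub_self]
    exact Ideal.zero_mem _
  | add p q hp hq =>
    rw [map_add, add_sub_add_comm]
    exact Ideal.add_mem _ hp hq
  | mul_X p i hp =>
    have h1 : tau v (p * X i) - p * X i = tau v p * (tau v (X i) - X i) + (tau v p - p) * X i := by
      rw [map_mul]; ring
    rw [h1]
    refine Ideal.add_mem _ (Ideal.mul_mem_left _ _ ?_) (Ideal.mul_mem_right _ _ hp)
    rcases i with i | t
    · rw [tau_inl, sub_self]; exact Ideal.zero_mem _
    · rw [tau_inr, add_sub_cancel_left]; exact ren_EI w (hv t)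

lemma tau_div (w : Fin n → ℕ) (l : ℕ) (hv : ∀ t, v t ∈ EI (X : Fin n → MvPolynomial (Fin n) k) w l)
    (d : ℕ) (b : MvPolynomial (Fin n ⊕ Fin m) k) (hb : b ∈ EI (xs k n m) w d) :
    tau v b - b ∈ EI (xs k n m) w (d + l) := by
  have hb2 := hb
  unfold EI at hb2
  induction hb2 using Submodule.span_induction with
  | mem y hy =>
    obtain ⟨α, hα, rfl⟩ := hy
    rw [mono_ren, tau_ren, sub_self]
    exact Ideal.zero_mem _
  | zero => rw [map_zero, sub_self]; exact Ideal.zero_mem _
  | add y z hy' hz' hy hz =>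
    rw [map_add, add_sub_add_comm]
    exact Ideal.add_mem _ (hy hy') (hz hz')
  | smul c y hy' hy =>
    have h1 : tau v (c • y) - c • y = tau v c * (tau v y - y) + y * (tau v c - c) := by
      rw [smul_eq_mul, map_mul]; ring
    rw [h1]
    exact Ideal.add_mem _ (Ideal.mul_mem_left _ _ (hy hy'))
      (mul_mem_EI _ w hy' (tau_mem v w l hv c))

end tau

section tower

variable {k : Type u} [Field k] {n m r : ℕ} (v : Fin r → Fin m → MvPolynomial (Fin n) k)

/-- The common invariants of the first automorphisms. -/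
noncomputable def CS (i : ℕ) : Subalgebra k (MvPolynomial (Fin n ⊕ Fin m) k) where
  carrier := {b | ∀ j : Fin r, (j : ℕ) < i → tau (v j) b = b}
  mul_mem' := by
    intro a b ha hb j hj
    rw [map_mul, ha j hj, hb j hj]
  add_mem' := by
    intro a b ha hb j hj
    rw [map_add, ha j hj, hb j hj]
  algebraMap_mem' := fun a j _ => (tau (v j)).commutes a

lemma tau_CS (i : ℕ) (j : Fin r) (b : MvPolynomial (Fin n ⊕ Fin m) k) (hb : b ∈ CS v i) :
    tau (v j) b ∈ CS v i := by
  intro j' hj'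
  rw [tau_tau, add_comm, ← tau_tau, hb j' hj']

/-- The inclusion of the polynomials in the first coordinates. -/
noncomputable def iS (i : ℕ) : MvPolynomial (Fin n) k →ₐ[k] CS v i :=
  (rename Sum.inl).codRestrict (CS v i) fun f j _ => tau_ren (v j) f

lemma coe_iS (i : ℕ) (f : MvPolynomial (Fin n) k) : (iS v i f :
    MvPolynomial (Fin n ⊕ Fin m) k) = rename Sum.inl f := rfl

lemma CS_le (i : ℕ) : CS v (i + 1) ≤ CS v i := fun _ hb j hj => hb j (by omega)

lemma pow_EI_CS {p : ℕ} (hp : p.Prime) (hpk : (p : k) = 0) (w : Fin n → ℕ) (i : ℕ) (hi : i ≤ r) :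
    ∀ (d : ℕ) (a : CS v i), (a : MvPolynomial (Fin n ⊕ Fin m) k) ∈ EI (xs k n m) w d →
      a ^ (p ^ i) ∈ EI (fun j => iS v i (X j)) w (p ^ i * d) := by
  induction i with
  | zero =>
    intro d a ha
    let f : MvPolynomial (Fin n ⊕ Fin m) k →ₐ[k] CS v 0 :=
      (AlgHom.id k _).codRestrict (CS v 0) fun b j hj => absurd hj (Nat.not_lt_zero _)
    have h1 := map_mem_EI _ w f.toRingHom ha
    have h2 : (fun i => f.toRingHom (xs k n m i)) = fun j => iS v 0 (X j) := by
      ext1 i
      apply Subtype.ext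
      rw [coe_iS, rename_X]
      rfl
    rw [h2] at h1
    rw [pow_zero, pow_one, one_mul]
    exact h1
  | succ i ih =>
    intro d a ha
    let C := CS v i
    let σ : C ≃ₐ[k] C := resAut (tau (v ⟨i, hi⟩)) p hp.pos (tau_p _ hpk) C (tau_CS v i ⟨i, hi⟩)
    let a' : C := ⟨a, CS_le v i a.2⟩
    have h1 := ih (by omega) d a' ha
    have hσa : σ (a' ^ p ^ i) = a' ^ p ^ i := by
      rw [map_pow]
      congr 1
      exact Subtype.ext (a.2 ⟨i, hi⟩ (Nat.lt_succ_self i))
    obtain ⟨N, hN1, hN2, hN3⟩ := norm_mem w σ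
      (fun b => Subtype.ext ((coe_iter_resAut _ _ _ _ _ _ _ b).trans (tau_p _ hpk _)))
      (fun j => iS v i (X j)) (fun j => Subtype.ext (tau_ren _ _)) h1 hσa
    have hN2' : ∀ β, ((coeff β N : C) : MvPolynomial (Fin n ⊕ Fin m) k) ∈ CS v (i + 1) := by
      intro β j hj
      rcases Nat.lt_succ_iff_lt_or_eq.1 hj with h3 | h3
      · exact (coeff β N).2 j h3
      · have h4 : j = ⟨i, hi⟩ := Fin.ext h3
        rw [h4]
        exact congrArg Subtype.val (hN2 β)
    have h5 : a ^ (p ^ (i + 1)) = ∑ β ∈ N.support,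
        (⟨((coeff β N : C) : MvPolynomial (Fin n ⊕ Fin m) k), hN2' β⟩ : CS v (i + 1)) *
        ∏ j, (iS v (i + 1) (X j)) ^ (β j) := by
      apply Subtype.ext
      rw [eval_eq', ← pow_mul, ← pow_succ] at hN3
      have h6 := congrArg (fun c : C => (c : MvPolynomial (Fin n ⊕ Fin m) k)) hN3
      change _ = ((a' ^ p ^ (i + 1) : C) : MvPolynomial (Fin n ⊕ Fin m) k) at h6
      rw [SubmonoidClass.coe_pow] at h6
      rw [SubmonoidClass.coe_pow]
      refine h6.symm.trans ?_
      rw [AddSubmonoidClass.coe_finsetSum, AddSubmonoidClass.coe_finsetSum]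
      refine Finset.sum_congr rfl fun β _ => ?_
      change ((coeff β N : C) : MvPolynomial (Fin n ⊕ Fin m) k) *
        ((∏ j, (iS v i (X j)) ^ (β j) : C) : MvPolynomial (Fin n ⊕ Fin m) k) =
        ((coeff β N : C) : MvPolynomial (Fin n ⊕ Fin m) k) *
        ((∏ j, (iS v (i + 1) (X j)) ^ (β j) : CS v (i + 1)) : MvPolynomial (Fin n ⊕ Fin m) k)
      rw [SubmonoidClass.coe_finsetProd, SubmonoidClass.coe_finsetProd]
      rfl
    rw [h5]
    refine Ideal.sum_mem _ fun β hβ => Ideal.mul_mem_left _ _ ?_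
    refine mono_mem _ w _ ?_
    have h7 := hN1 β hβ
    have h8 : p ^ (i + 1) * d = p * (p ^ i * d) := by rw [pow_succ]; ring
    rw [h8]
    exact h7

/-- The steps of the tower. -/
theorem sstep_CS {p : ℕ} (hp : p.Prime) (hpk : (p : k) = 0) (w : Fin n → ℕ)
    (l : Fin r → ℕ) (hl : ∀ j, 0 < l j) (hv : ∀ j t, IsWeightedHomogeneous w (v j t) (l j))
    (hV : ∀ (K : Type u) [Field K] [Algebra k K] (z : Fin n → K), (∃ i, 0 < w i ∧ z i ≠ 0) →
      LinearIndependent K (fun j t => aeval z (v j t))) (i : ℕ) (hi : i < r) :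
    SStep p (EI (xs k n m) w) (CS v i) (CS v (i + 1)) := by
  let σ : CS v i ≃ₐ[k] CS v i :=
    resAut (tau (v ⟨i, hi⟩)) p hp.pos (tau_p _ hpk) (CS v i) (tau_CS v i ⟨i, hi⟩)
  have hvE : ∀ t, v ⟨i, hi⟩ t ∈ EI (X : Fin n → MvPolynomial (Fin n) k) w (l ⟨i, hi⟩) :=
    fun t => hom_mem_EI w (hv _ t)
  let μ : ℕ := ∑ a' : Fin i, l ⟨a', by omega⟩
  have hrad : ∀ s, 0 < w s → (X s : MvPolynomial (Fin n) k) ∈ (Ideal.span (Set.range fun J :
      Fin (i + 1) → Fin m => mnr v hi J)).radical := by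
    intro s hws
    refine minors_rad w (fun (a : Fin (i + 1)) => v ⟨a, by omega⟩) ?_ s hws
    intro K _ _ z hz
    have h1 := (hV K z hz).comp (fun a : Fin (i + 1) => (⟨a, by omega⟩ : Fin r)) (by
      intro a b hab
      exact Fin.ext (congrArg (fun x : Fin r => (x : ℕ)) hab))
    exact h1
  obtain ⟨h3, h4⟩ := step_core w (EI (xs k n m) w) (CS v i) (fun c => σ c - c) (l ⟨i, hi⟩) μ
    (p ^ i) (pow_pos hp.pos i)
    (iS v i) (fun d f hf => ren_EI w hf)
    (fun d a ha => pow_EI_CS v hp hpk w i hi.le d a ha)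
    (fun J : Fin (i + 1) → Fin m => mnr v hi J) (fun J => hom_mnr w v l hv hi J)
    hrad
    (fun J => by
      have hker : ∀ j : Fin r, tau (v j) (∑ b, rename Sum.inl (cof v hi J b) *
          X (Sum.inr (J b))) - (∑ b, rename Sum.inl (cof v hi J b) *
          X (Sum.inr (J b))) = rename Sum.inl (∑ b, cof v hi J b * v j (J b)) := by
        intro j
        rw [map_sum, map_sum, ← Finset.sum_sub_distrib]
        refine Finset.sum_congr rfl fun b _ => ?_
        rw [map_mul, tau_ren, tau_inr, map_mul]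
        ring
      refine ⟨⟨∑ b, rename Sum.inl (cof v hi J b) * X (Sum.inr (J b)), ?_⟩, ?_, ?_⟩
      · intro j hj
        rw [← sub_eq_zero, hker, sum_cof_lt v hi J j hj, map_zero]
      · change (∑ b, rename Sum.inl (cof v hi J b) * X (Sum.inr (J b))) ∈ EI (xs k n m) w μ
        refine Ideal.sum_mem _ fun b _ => Ideal.mul_mem_right _ _ ?_
        exact ren_EI w (hom_mem_EI w (hom_cof w v l hv hi J b))
      · apply Subtype.ext
        change tau (v ⟨i, hi⟩) (∑ b, rename Sum.inl (cof v hi J b) * X (Sum.inr (J b))) -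
          (∑ b, rename Sum.inl (cof v hi J b) * X (Sum.inr (J b))) = _
        rw [hker, sum_cof_eq]
        rfl)
  refine ⟨σ, l ⟨i, hi⟩, ?_, hl _, ?_, h3, h4, ?_⟩
  · intro b
    exact Subtype.ext ((coe_iter_resAut _ _ _ _ _ _ _ b).trans (tau_p _ hpk _))
  · intro d a ha
    exact tau_div (v ⟨i, hi⟩) w _ hvE d a ha
  · intro b
    constructor
    · intro h
      refine ⟨fun j hj => h j (by omega), Subtype.ext (h ⟨i, hi⟩ (Nat.lt_succ_self i))⟩
    · rintro ⟨h1, h2⟩ j hj
      rcases Nat.lt_succ_iff_lt_or_eq.1 hj with h3 | h3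
      · exact h1 j h3
      · have h4 : j = ⟨i, hi⟩ := Fin.ext h3
        rw [h4]
        exact congrArg Subtype.val h2

/-- The rings of common invariants are good. -/
theorem good_CS {p : ℕ} (hp : p.Prime) (hpk : (p : k) = 0) (w : Fin n → ℕ)
    (hw : ∃ i, 0 < w i)
    (l : Fin r → ℕ) (hl : ∀ j, 0 < l j) (hv : ∀ j t, IsWeightedHomogeneous w (v j t) (l j))
    (hV : ∀ (K : Type u) [Field K] [Algebra k K] (z : Fin n → K), (∃ i, 0 < w i ∧ z i ≠ 0) →
      LinearIndependent K (fun j t => aeval z (v j t))) (i : ℕ) (hi : i ≤ r) :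
    Good k (isFilt_restr (isFilt_EI (xs k n m) w) (CS v i)) ∧
      restr (EI (xs k n m) w) (CS v i) 1 ≠ ⊥ := by
  induction i with
  | zero =>
    refine good_top (isFilt_EI (xs k n m) w) (good_B w) (one_ne_bot w hw) ?_
    exact top_unique fun b _ j hj => absurd hj (Nat.not_lt_zero _)
  | succ i ih =>
    obtain ⟨h1, h2⟩ := ih (by omega)
    exact good_sstep hp hpk (isFilt_EI (xs k n m) w)
      (sstep_CS v hp hpk w l hl hv hV i (by omega)) h1 h2

end tower

end Pool.Agent.H519R3.RE
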