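import Pool.Agent.H519R3.RE.X5

set_option autoImplicit false
set_option linter.unusedSectionVars false

open Polynomial

universe u v

namespace Pool.Agent.H519R3.RE

section one

variable {R : Type u} [CommRing R] [IsDomain R] {p : ℕ}

/-- Polynomials invariant under a translation in characteristic `p`. -/
theorem inv_shift (hp : p.Prime) [CharP R p] (e : R) (he : e ≠ 0) :
    ∀ (N : ℕ) (Q : R[X]), Q.natDegree ≤ N → Q.comp (X + C e) = Q →
      ∃ Q' : R[X], Q = Q'.comp (X ^ p - C (e ^ (p - 1)) * X) := by
  have _ : Fact p.Prime := ⟨hp⟩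
  let M : R[X] := X ^ p - C (e ^ (p - 1)) * X
  have hMd : (C (e ^ (p - 1)) * X : R[X]).degree < ((X : R[X]) ^ p).degree := by
    rw [degree_X_pow]
    refine lt_of_le_of_lt (degree_C_mul_X_le _) ?_
    exact_mod_cast hp.one_lt
  have hM : M.Monic := (monic_X_pow p).sub_of_left hMd
  have hMdeg : M.degree = p := by
    change (X ^ p - C (e ^ (p - 1)) * X : R[X]).degree = p
    rw [degree_sub_eq_left_of_degree_lt hMd, degree_X_pow]
  have hMnat : M.natDegree = p := natDegree_eq_of_degree_eq_some hMdeg
  have hMs : M.comp (X + C e) = M := by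
    change (X ^ p - C (e ^ (p - 1)) * X : R[X]).comp (X + C e) = X ^ p - C (e ^ (p - 1)) * X
    rw [sub_comp, pow_comp, X_comp, mul_comp, C_comp, X_comp, add_pow_char, mul_add, ← C_pow,
      ← C_mul]
    have h1 : e ^ (p - 1) * e = e ^ p := by
      rw [← pow_succ]
      congr 1
      have := hp.pos
      omega
    rw [h1]
    ring
  intro N
  induction N using Nat.strong_induction_on with
  | _ N ih =>
  intro Q hQN hQ
  have hdiv := modByMonic_add_div Q M
  have hdegr : ((Q %ₘ M).comp (X + C e)).degree < M.degree := by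
    have h1 : ((Q %ₘ M).comp (X + C e)).degree ≤ (Q %ₘ M).degree := by
      have h2 : (X + C e : R[X]).natDegree = 1 := natDegree_X_add_C e
      rcases eq_or_ne (Q %ₘ M) 0 with h0 | h0
      · rw [h0, zero_comp]
      · refine degree_le_of_natDegree_le ?_ |>.trans (degree_eq_natDegree h0).symm.le
        rw [natDegree_comp, h2, mul_one]
    exact lt_of_le_of_lt h1 (degree_modByMonic_lt Q hM)
  have huniq := div_modByMonic_unique (f := Q) ((Q /ₘ M).comp (X + C e))
    ((Q %ₘ M).comp (X + C e)) hM ⟨by
      have h1 := congrArg (fun f : R[X] => f.comp (X + C e)) hdiv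
      simp only [add_comp, mul_comp] at h1
      rw [hMs, hQ] at h1
      exact h1, hdegr⟩
  obtain ⟨hq1, hr1⟩ := huniq
  -- the remainder is constant
  have hrc : Q %ₘ M = C ((Q %ₘ M).eval 0) := by
    have hev : ∀ j : ℕ, (Q %ₘ M).eval ((j : R) * e) = (Q %ₘ M).eval 0 := by
      intro j
      induction j with
      | zero => rw [Nat.cast_zero, zero_mul]
      | succ j ihj =>
        have h1 := congrArg (fun f : R[X] => f.eval ((j : R) * e)) hr1
        simp only [eval_comp, eval_add, eval_X, eval_C] at h1
        rw [← ihj, h1]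
        congr 1
        push_cast
        ring
    have hz : Q %ₘ M - C ((Q %ₘ M).eval 0) = 0 := by
      refine eq_zero_of_natDegree_lt_card_of_eval_eq_zero (ι := Fin p) _
        (f := fun j => ((j : ℕ) : R) * e) ?_ ?_ ?_
      · intro a b hab
        have h1 : ((a : ℕ) : R) = ((b : ℕ) : R) := mul_right_cancel₀ he hab
        have h2 := (CharP.natCast_eq_natCast R p).1 h1
        exact Fin.ext (Nat.ModEq.eq_of_lt_of_lt h2 a.2 b.2)
      · intro j
        rw [eval_sub, eval_C, hev, sub_self]
      · rw [Fintype.card_fin]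
        rw [natDegree_sub_C, ← hMnat]
        exact natDegree_modByMonic_lt Q hM (by
          intro h
          rw [h, natDegree_one] at hMnat
          exact hp.ne_zero hMnat.symm)
    exact sub_eq_zero.1 hz
  rcases eq_or_ne (Q /ₘ M) 0 with h0 | h0
  · refine ⟨C ((Q %ₘ M).eval 0), ?_⟩
    rw [C_comp, ← hrc]
    rw [h0, mul_zero, add_zero] at hdiv
    exact hdiv.symm
  · have hlt : (Q /ₘ M).natDegree < N := by
      have h1 := natDegree_divByMonic Q hM
      have h2 : p ≤ Q.natDegree := by
        by_contra h
        push Not at h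
        apply h0
        rw [divByMonic_eq_zero_iff hM, hMdeg]
        refine lt_of_le_of_lt degree_le_natDegree ?_
        exact_mod_cast h
      have := hp.pos
      omega
    obtain ⟨Q1, hQ1⟩ := ih _ hlt (Q /ₘ M) le_rfl hq1.symm
    refine ⟨C ((Q %ₘ M).eval 0) + X * Q1, ?_⟩
    rw [add_comp, C_comp, mul_comp, X_comp, ← hQ1, ← hrc]
    exact hdiv.symm

end one

section NH

variable {k : Type u} [Field k] (p : ℕ) (γ : ℕ → k)

open Classical in
/-- The additive polynomials with the zeros generated by the first elements. -/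
noncomputable def Lp : ℕ → k → k
  | 0, a => a
  | (i + 1), a => if Lp i (γ i) = 0 then Lp i a else
      (Lp i a) ^ p - (Lp i (γ i)) ^ (p - 1) * Lp i a

open Classical in
/-- The orders of the groups generated by the first elements. -/
noncomputable def qe : ℕ → ℕ
  | 0 => 1
  | (i + 1) => if Lp p γ i (γ i) = 0 then qe i else p * qe i

open Classical in
/-- The homogenized additive polynomials. -/
noncomputable def Nh {S : Type v} [CommRing S] [Algebra k S] (y c : S) : ℕ → S
  | 0 => y
  | (i + 1) => if Lp p γ i (γ i) = 0 then Nh y c i else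
      (Nh y c i) ^ p - (algebraMap k S (Lp p γ i (γ i)) * c ^ qe p γ i) ^ (p - 1) * Nh y c i

variable {p}

open Classical in
lemma Lp_succ (i : ℕ) (a : k) : Lp p γ (i + 1) a = if Lp p γ i (γ i) = 0 then Lp p γ i a else
      (Lp p γ i a) ^ p - (Lp p γ i (γ i)) ^ (p - 1) * Lp p γ i a := rfl

open Classical in
lemma qe_succ (i : ℕ) : qe p γ (i + 1) = if Lp p γ i (γ i) = 0 then qe p γ i else
    p * qe p γ i := rfl

open Classical in
lemma Nh_succ {S : Type v} [CommRing S] [Algebra k S] (y c : S) (i : ℕ) :
    Nh p γ y c (i + 1) = if Lp p γ i (γ i) = 0 then Nh p γ y c i else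
      (Nh p γ y c i) ^ p - (algebraMap k S (Lp p γ i (γ i)) * c ^ qe p γ i) ^ (p - 1) *
        Nh p γ y c i := rfl

lemma Lp_zero (hp : p.Prime) (i : ℕ) : Lp p γ i 0 = 0 := by
  induction i with
  | zero => rfl
  | succ i ih =>
    rw [Lp_succ]
    split_ifs
    · exact ih
    · rw [ih, zero_pow hp.ne_zero, mul_zero, sub_zero]

section S

variable {S : Type v} [CommRing S] [Algebra k S]

lemma Nh_smul (hp : p.Prime) (a : k) (c : S) (i : ℕ) :
    Nh p γ (algebraMap k S a * c) c i = algebraMap k S (Lp p γ i a) * c ^ qe p γ i := by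
  induction i with
  | zero =>
    unfold Nh Lp qe
    rw [pow_one]
  | succ i ih =>
    rw [Nh_succ, Lp_succ, qe_succ]
    split_ifs
    · exact ih
    · rw [ih, map_sub, map_mul, map_pow, map_pow]
      have h1 : p * qe p γ i = (p - 1) * qe p γ i + qe p γ i := by
        obtain ⟨p', rfl⟩ : ∃ p', p = p' + 1 := ⟨p - 1, by have := hp.pos; omega⟩
        rw [Nat.add_sub_cancel]
        ring
      have h2 : (c ^ qe p γ i) ^ p = c ^ (p * qe p γ i) := by rw [← pow_mul, mul_comm]
      have h3 : (c ^ qe p γ i) ^ (p - 1) * c ^ qe p γ i = c ^ (p * qe p γ i) := by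
        rw [← pow_mul, ← pow_add, h1, mul_comm]
      rw [mul_pow, mul_pow, h2, sub_mul]
      congr 1
      calc _ = algebraMap k S (Lp p γ i (γ i)) ^ (p - 1) * algebraMap k S (Lp p γ i a) *
            ((c ^ qe p γ i) ^ (p - 1) * c ^ qe p γ i) := by ring
        _ = _ := by rw [h3]

lemma Nh_add (hp : p.Prime) [CharP S p] (y y' c : S) (i : ℕ) :
    Nh p γ (y + y') c i = Nh p γ y c i + Nh p γ y' c i := by
  have _ : Fact p.Prime := ⟨hp⟩
  induction i with
  | zero => rfl
  | succ i ih =>
    rw [Nh_succ, Nh_succ, Nh_succ]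
    split_ifs
    · exact ih
    · rw [ih, add_pow_char]
      ring

lemma map_Nh {S' : Type*} [CommRing S'] [Algebra k S'] (f : S →+* S')
    (hf : ∀ a, f (algebraMap k S a) = algebraMap k S' a) (y c : S) (i : ℕ) :
    f (Nh p γ y c i) = Nh p γ (f y) (f c) i := by
  induction i with
  | zero => rfl
  | succ i ih =>
    rw [Nh_succ, Nh_succ]
    split_ifs
    · exact ih
    · rw [map_sub, map_pow, ih, map_mul, map_pow, map_mul, map_pow, hf, ih]

end S

section R

variable {R : Type v} [CommRing R] [IsDomain R] [Algebra k R]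

lemma one_le_natDegree_Nh (hp : p.Prime) (u : R) (i : ℕ) :
    1 ≤ (Nh p γ (X : R[X]) (C u) i).natDegree := by
  induction i with
  | zero =>
    unfold Nh
    rw [natDegree_X]
  | succ i ih =>
    rw [Nh_succ]
    split_ifs
    · exact ih
    · have h1 : (algebraMap k R[X] (Lp p γ i (γ i)) * C u ^ qe p γ i) ^ (p - 1) =
          C ((algebraMap k R (Lp p γ i (γ i)) * u ^ qe p γ i) ^ (p - 1)) := by
        rw [C_pow, C_mul, C_pow]
        rfl
      have h2 : (C ((algebraMap k R (Lp p γ i (γ i)) * u ^ qe p γ i) ^ (p - 1)) *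
          Nh p γ (X : R[X]) (C u) i).natDegree < ((Nh p γ (X : R[X]) (C u) i) ^ p).natDegree := by
        refine lt_of_le_of_lt (natDegree_C_mul_le _ _) ?_
        rw [natDegree_pow]
        have := hp.one_lt
        nlinarith
      rw [h1, natDegree_sub_eq_left_of_natDegree_lt h2, natDegree_pow]
      have := hp.pos
      nlinarith

/-- Polynomials invariant under the translations by the multiples of the first elements. -/
theorem inv_shifts (hp : p.Prime) [CharP R p] (u : R) (hu : u ≠ 0) (P : R[X]) (i : ℕ)
    (hP : ∀ j < i, P.comp (X + C (algebraMap k R (γ j) * u)) = P) :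
    ∃ Q : R[X], P = Q.comp (Nh p γ (X : R[X]) (C u) i) := by
  have _ : Fact p.Prime := ⟨hp⟩
  induction i with
  | zero => exact ⟨P, by unfold Nh; rw [comp_X]⟩
  | succ i ih =>
    obtain ⟨Q, hQ⟩ := ih fun j hj => hP j (by omega)
    by_cases hlam : Lp p γ i (γ i) = 0
    · refine ⟨Q, ?_⟩
      rw [Nh_succ, if_pos hlam]
      exact hQ
    · let N : R[X] := Nh p γ (X : R[X]) (C u) i
      let e : R := algebraMap k R (Lp p γ i (γ i)) * u ^ qe p γ i
      have he : e ≠ 0 := mul_ne_zero (by
        rw [Ne, map_eq_zero_iff _ (FaithfulSMul.algebraMap_injective k R)]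
        exact hlam) (pow_ne_zero _ hu)
      have h1 : N.comp (X + C (algebraMap k R (γ i) * u)) = N + C e := by
        have h2 := map_Nh γ (compRingHom (X + C (algebraMap k R (γ i) * u)) : R[X] →+* R[X])
          (p := p) (fun a => by
            change (C (algebraMap k R a)).comp _ = C (algebraMap k R a)
            rw [C_comp]) X (C u) i
        have h3 : N.comp (X + C (algebraMap k R (γ i) * u)) =
            Nh p γ (X + C (algebraMap k R (γ i) * u)) (C u) i := by
          refine h2.trans ?_
          congr 1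
          · exact X_comp
          · exact C_comp
        rw [h3, Nh_add γ hp]
        congr 1
        have h4 : (C (algebraMap k R (γ i) * u) : R[X]) = algebraMap k R[X] (γ i) * C u := by
          rw [C_mul]
          rfl
        rw [h4, Nh_smul γ hp]
        change _ = C (algebraMap k R (Lp p γ i (γ i)) * u ^ qe p γ i)
        rw [C_mul, C_pow]
        rfl
      have h5 : (Q.comp (X + C e)).comp N = Q.comp N := by
        have h6 := hP i (by omega)
        rw [hQ, comp_assoc] at h6
        rw [comp_assoc, add_comp, X_comp, C_comp, ← h1]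
        exact h6
      have h7 : Q.comp (X + C e) = Q := by
        have h8 : (Q.comp (X + C e) - Q).comp N = 0 := by rw [sub_comp, h5, sub_self]
        rcases comp_eq_zero_iff.1 h8 with h9 | ⟨-, h9⟩
        · exact sub_eq_zero.1 h9
        · exfalso
          have h10 := one_le_natDegree_Nh γ hp u i (p := p)
          change 1 ≤ N.natDegree at h10
          rw [h9, natDegree_C] at h10
          omega
      obtain ⟨Q', hQ'⟩ := inv_shift hp e he _ Q le_rfl h7
      refine ⟨Q', ?_⟩
      rw [hQ]
      conv_lhs => rw [hQ']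
      rw [comp_assoc]
      congr 1
      rw [Nh_succ, if_neg hlam, sub_comp, pow_comp, X_comp, mul_comp, C_comp, X_comp]
      congr 2
      rw [C_pow]
      congr 1
      change C (algebraMap k R (Lp p γ i (γ i)) * u ^ qe p γ i) = _
      rw [C_mul, C_pow]
      rfl

/-- The divisibility of the differences. -/
theorem dvd_shift (hp : p.Prime) [CharP R p] (u : R) (hu : u ≠ 0) (P : R[X]) (i : ℕ)
    (hP : ∀ j < i, P.comp (X + C (algebraMap k R (γ j) * u)) = P) (a : k) :
    algebraMap k R (Lp p γ i a) * u ^ qe p γ i ∣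
      P.eval (algebraMap k R a * u) - P.eval 0 := by
  obtain ⟨Q, hQ⟩ := inv_shifts γ hp u hu P i hP
  have h1 : ∀ b : k, (Nh p γ (X : R[X]) (C u) i).eval (algebraMap k R b * u) =
      algebraMap k R (Lp p γ i b) * u ^ qe p γ i := by
    intro b
    have h2 := map_Nh γ (evalRingHom (algebraMap k R b * u) : R[X] →+* R) (p := p) (fun c => by
      change (C (algebraMap k R c)).eval _ = _
      rw [eval_C]) X (C u) i
    have h3 : (Nh p γ (X : R[X]) (C u) i).eval (algebraMap k R b * u) =
        Nh p γ (algebraMap k R b * u) u i := by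
      refine h2.trans ?_
      congr 1
      · exact eval_X
      · exact eval_C
    rw [h3, Nh_smul γ hp]
  have h2 := h1 0
  rw [map_zero, zero_mul, Lp_zero γ hp, map_zero, zero_mul] at h2
  have h3 := sub_dvd_eval_sub (algebraMap k R (Lp p γ i a) * u ^ qe p γ i) 0 Q
  rw [sub_zero] at h3
  rw [hQ, eval_comp, eval_comp, h1, h2]
  exact h3

end R

end NH

end Pool.Agent.H519R3.RE
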