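import Pool.Agent.H519R3.RE.X6

set_option autoImplicit false
set_option linter.unusedSectionVars false

open MvPolynomial AlgebraicGeometry CategoryTheory Pool.Agent.H920R2 Pool.Agent.H519R3.RS

universe u v

namespace Pool.Agent.H519R3.RE

section hmap

variable {k : Type u} [Field k] {n m : ℕ} (w : Fin n → ℕ)

/-- The homogenization. -/
noncomputable def hh : MvPolynomial (Fin n ⊕ Fin m) k →ₐ[k]
    Polynomial (MvPolynomial (Fin n ⊕ Fin m) k) :=
  aeval (Sum.elim (fun i => Polynomial.C (X (Sum.inl i)) * Polynomial.X ^ w i)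
    fun t => Polynomial.C (X (Sum.inr t)))

lemma hh_inl (i : Fin n) : hh (k := k) (m := m) w (X (Sum.inl i)) =
    Polynomial.C (X (Sum.inl i)) * Polynomial.X ^ w i := by
  unfold hh; rw [aeval_X]; rfl

lemma hh_inr (t : Fin m) : hh (k := k) w (X (Sum.inr t)) = Polynomial.C (X (Sum.inr t)) := by
  unfold hh; rw [aeval_X]; rfl

lemma hh_hom (f : MvPolynomial (Fin n) k) (l : ℕ) (hf : IsWeightedHomogeneous w f l) :
    hh (k := k) (m := m) w (rename Sum.inl f) =
      Polynomial.C (rename Sum.inl f) * Polynomial.X ^ l := by
  have h1 : ∀ α : Fin n →₀ ℕ, ∀ a : k, Finsupp.weight w α = l →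
      hh (k := k) (m := m) w (rename Sum.inl (monomial α a)) =
        Polynomial.C (rename Sum.inl (monomial α a)) * Polynomial.X ^ l := by
    intro α a hα
    rw [monomial_eq, map_mul, map_mul, rename_C,
      Finsupp.prod_fintype _ _ (fun i => pow_zero _), map_prod, map_prod]
    have h2 : hh (k := k) (m := m) w (C a) = Polynomial.C (C a) := (hh w).commutes a
    have h3 : ∀ i, hh (k := k) (m := m) w (rename Sum.inl ((X i : MvPolynomial (Fin n) k) ^ α i)) =
        Polynomial.C (rename Sum.inl ((X i : MvPolynomial (Fin n) k) ^ α i)) *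
          Polynomial.X ^ (α i * w i) := by
      intro i
      rw [map_pow, map_pow, rename_X, hh_inl, mul_pow, ← pow_mul, map_pow, mul_comm (w i)]
    rw [h2, Finset.prod_congr rfl fun i _ => h3 i, Finset.prod_mul_distrib,
      Finset.prod_pow_eq_pow_sum, ← weight_eq w α, hα, Polynomial.C_mul, map_prod, mul_assoc]
  rw [f.as_sum, map_sum, map_sum, map_sum, Finset.sum_mul]
  refine Finset.sum_congr rfl fun α hα => ?_
  exact h1 α _ (hf (mem_support_iff.1 hα))

lemma coeff_hh (f : MvPolynomial (Fin n ⊕ Fin m) k) (e : ℕ) :
    (hh w f).coeff e ∈ EI (xs k n m) w e := by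
  induction f using MvPolynomial.induction_on generalizing e with
  | C a =>
    have h2 : hh (k := k) (m := m) w (C a) = Polynomial.C (C a) := (hh w).commutes a
    rw [h2, Polynomial.coeff_C]
    split_ifs with h
    · rw [h, EI_zero]; trivial
    · exact Ideal.zero_mem _
  | add p q hp hq => rw [map_add, Polynomial.coeff_add]; exact Ideal.add_mem _ (hp e) (hq e)
  | mul_X p i hp =>
    rcases i with i | t
    · rw [map_mul, hh_inl, ← mul_assoc, Polynomial.coeff_mul_X_pow']
      split_ifs with h
      · rw [Polynomial.coeff_mul_C]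
        have h1 := mono_mem (xs k n m) w (d := w i) (Pi.single i 1) (by
          rw [Finset.sum_eq_single i]
          · simp
          · intro j _ hj
            rw [Pi.single_eq_of_ne hj, zero_mul]
          · intro h
            exact absurd (Finset.mem_univ i) h)
        have h2 : ∏ j, xs k n m j ^ (Pi.single i 1 : Fin n → ℕ) j = X (Sum.inl i) := by
          rw [Finset.prod_eq_single i]
          · rw [Pi.single_eq_same, pow_one]; rfl
          · intro j _ hj
            rw [Pi.single_eq_of_ne hj, pow_zero]
          · intro h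
            exact absurd (Finset.mem_univ i) h
        rw [h2] at h1
        have h3 := mul_mem_EI _ w (hp (e - w i)) h1
        rwa [Nat.sub_add_cancel h] at h3
      · exact Ideal.zero_mem _
    · rw [map_mul, hh_inr, Polynomial.coeff_mul_C]
      exact Ideal.mul_mem_right _ _ (hp e)

lemma eval_hh (f : MvPolynomial (Fin n ⊕ Fin m) k) : (hh w f).eval 1 = f := by
  induction f using MvPolynomial.induction_on with
  | C a =>
    have h2 : hh (k := k) (m := m) w (C a) = Polynomial.C (C a) := (hh w).commutes a
    rw [h2, Polynomial.eval_C]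
  | add p q hp hq => rw [map_add, Polynomial.eval_add, hp, hq]
  | mul_X p i hp =>
    rcases i with i | t
    · rw [map_mul, hh_inl, Polynomial.eval_mul, hp, Polynomial.eval_mul, Polynomial.eval_C,
        Polynomial.eval_pow, Polynomial.eval_X, one_pow, mul_one]
    · rw [map_mul, hh_inr, Polynomial.eval_mul, hp, Polynomial.eval_C]

lemma mem_of_dvd {f : MvPolynomial (Fin n ⊕ Fin m) k} {d : ℕ}
    (h : Polynomial.X ^ d ∣ hh w f) : f ∈ EI (xs k n m) w d := by
  rw [← eval_hh w f, Polynomial.eval_eq_sum, Polynomial.sum_def]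
  refine Ideal.sum_mem _ fun e he => Ideal.mul_mem_right _ _ ?_
  rcases lt_or_ge e d with h1 | h1
  · rw [(Polynomial.X_pow_dvd_iff.1 h) e h1]
    exact Ideal.zero_mem _
  · exact EI_anti _ w h1 (coeff_hh w f e)

lemma dvd_of_mem {f : MvPolynomial (Fin n ⊕ Fin m) k} {d : ℕ}
    (h : f ∈ EI (xs k n m) w d) : Polynomial.X ^ d ∣ hh w f := by
  unfold EI at h
  induction h using Submodule.span_induction with
  | mem y hy =>
    obtain ⟨α, hα, rfl⟩ := hy
    have h1 : hh w (∏ i, xs k n m i ^ α i) = (∏ i, Polynomial.C (X (Sum.inl i)) ^ α i) *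
        Polynomial.X ^ (∑ i, α i * w i) := by
      rw [map_prod, ← Finset.prod_pow_eq_pow_sum, ← Finset.prod_mul_distrib]
      refine Finset.prod_congr rfl fun i _ => ?_
      change hh w (X (Sum.inl i) ^ α i) = _
      rw [map_pow, hh_inl, mul_pow, ← pow_mul, mul_comm (w i)]
    rw [h1]
    exact Dvd.dvd.mul_left (pow_dvd_pow _ hα) _
  | zero => rw [map_zero]; exact dvd_zero _
  | add y z _ _ hy hz => rw [map_add]; exact dvd_add hy hz
  | smul c y _ hy => rw [smul_eq_mul, map_mul]; exact Dvd.dvd.mul_left hy _

end hmap

section beta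

variable {k : Type u} [Field k] {n m : ℕ} (v : Fin m → MvPolynomial (Fin n) k)

/-- The action of the additive group on the coefficients. -/
noncomputable def b0 : MvPolynomial (Fin n ⊕ Fin m) k →ₐ[k]
    Polynomial (Polynomial (MvPolynomial (Fin n ⊕ Fin m) k)) :=
  aeval (Sum.elim (fun i => Polynomial.C (Polynomial.C (X (Sum.inl i))))
    fun t => Polynomial.C (Polynomial.C (X (Sum.inr t))) +
      Polynomial.C (Polynomial.C (rename Sum.inl (v t))) * Polynomial.X)

/-- The action of the additive group. -/
noncomputable def bet : Polynomial (MvPolynomial (Fin n ⊕ Fin m) k) →+*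
    Polynomial (Polynomial (MvPolynomial (Fin n ⊕ Fin m) k)) :=
  Polynomial.eval₂RingHom (R := MvPolynomial (Fin n ⊕ Fin m) k)
    (S := Polynomial (Polynomial (MvPolynomial (Fin n ⊕ Fin m) k))) (b0 v).toRingHom
    (Polynomial.C (Polynomial.X : Polynomial (MvPolynomial (Fin n ⊕ Fin m) k)))

lemma b0_inl (i : Fin n) : b0 v (X (Sum.inl i)) =
    Polynomial.C (Polynomial.C (X (Sum.inl i))) := by
  unfold b0; rw [aeval_X]; rfl

lemma b0_inr (t : Fin m) : b0 v (X (Sum.inr t)) =
    Polynomial.C (Polynomial.C (X (Sum.inr t))) +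
      Polynomial.C (Polynomial.C (rename Sum.inl (v t))) * Polynomial.X := by
  unfold b0; rw [aeval_X]; rfl

lemma b0_ren (f : MvPolynomial (Fin n) k) : b0 v (rename Sum.inl f) =
    Polynomial.C (Polynomial.C (rename Sum.inl f)) := by
  induction f using MvPolynomial.induction_on with
  | C a =>
    rw [rename_C]
    exact (b0 v).commutes a
  | add p q hp hq => rw [map_add, map_add, hp, hq, Polynomial.C_add, Polynomial.C_add]
  | mul_X p i hp => rw [map_mul, map_mul, hp, rename_X, b0_inl, Polynomial.C_mul,
      Polynomial.C_mul]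

lemma bet_C (f : MvPolynomial (Fin n ⊕ Fin m) k) : bet v (Polynomial.C f) = b0 v f := by
  unfold bet
  exact Polynomial.eval₂_C _ _

lemma bet_X : bet v Polynomial.X = Polynomial.C Polynomial.X := by
  unfold bet
  exact Polynomial.eval₂_X _ _

lemma bet_eval_zero (f : Polynomial (MvPolynomial (Fin n ⊕ Fin m) k)) :
    (bet v f).eval 0 = f := by
  have h1 : (Polynomial.evalRingHom 0).comp (bet v) = RingHom.id _ := by
    apply Polynomial.ringHom_ext'
    · apply MvPolynomial.ringHom_ext'
      · ext1 a
        change (bet v (Polynomial.C (C a))).eval 0 = Polynomial.C (C a)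
        rw [bet_C]
        have h2 : b0 v (C a) = Polynomial.C (Polynomial.C (C a)) := (b0 v).commutes a
        rw [h2, Polynomial.eval_C]
      · intro i
        change (bet v (Polynomial.C (X i))).eval 0 = Polynomial.C (X i)
        rw [bet_C]
        rcases i with i | t
        · rw [b0_inl, Polynomial.eval_C]
        · rw [b0_inr, Polynomial.eval_add, Polynomial.eval_C, Polynomial.eval_mul,
            Polynomial.eval_X, mul_zero, add_zero]
    · change (bet v Polynomial.X).eval 0 = Polynomial.X
      rw [bet_X, Polynomial.eval_C]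
  exact congrArg (fun g : Polynomial _ →+* Polynomial _ => g f) h1

/-- Translations and the action. -/
lemma bet_comp (c : Polynomial (MvPolynomial (Fin n ⊕ Fin m) k)) (hc : bet v c = Polynomial.C c)
    (f : Polynomial (MvPolynomial (Fin n ⊕ Fin m) k)) :
    (bet v f).comp (Polynomial.X + Polynomial.C c) = bet v ((bet v f).eval c) := by
  have h1 : (Polynomial.compRingHom (Polynomial.X + Polynomial.C c)).comp (bet v) =
      (bet v).comp ((Polynomial.evalRingHom c).comp (bet v)) := by
    apply Polynomial.ringHom_ext'
    · apply MvPolynomial.ringHom_ext'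
      · ext1 a
        change (bet v (Polynomial.C (C a))).comp _ =
          bet v ((bet v (Polynomial.C (C a))).eval c)
        rw [bet_C]
        have h2 : b0 v (C a) = Polynomial.C (Polynomial.C (C a)) := (b0 v).commutes a
        rw [h2, Polynomial.eval_C, Polynomial.C_comp, bet_C, h2]
      · intro i
        change (bet v (Polynomial.C (X i))).comp _ =
          bet v ((bet v (Polynomial.C (X i))).eval c)
        rw [bet_C]
        rcases i with i | t
        · rw [b0_inl, Polynomial.eval_C, Polynomial.C_comp, bet_C, b0_inl]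
        · rw [b0_inr, Polynomial.eval_add, Polynomial.eval_C, Polynomial.eval_mul,
            Polynomial.eval_X, Polynomial.eval_C, Polynomial.add_comp, Polynomial.C_comp,
            Polynomial.mul_comp, Polynomial.C_comp, Polynomial.X_comp, map_add, map_mul, bet_C,
            bet_C, hc, b0_inr, b0_ren]
          ring
    · change (bet v Polynomial.X).comp _ = bet v ((bet v Polynomial.X).eval c)
      rw [bet_X, Polynomial.eval_C, Polynomial.C_comp, bet_X]
  exact congrArg (fun g : Polynomial _ →+* Polynomial _ => g f) h1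

/-- The action and the substitutions. -/
lemma bet_hh (w : Fin n → ℕ) (l : ℕ) (hv : ∀ t, IsWeightedHomogeneous w (v t) l) (a : k)
    (f : MvPolynomial (Fin n ⊕ Fin m) k) :
    (bet v (hh w f)).eval (Polynomial.C (C a) * Polynomial.X ^ l) =
      hh w (tau (fun t => C a * v t) f) := by
  have h1 : ((Polynomial.evalRingHom (Polynomial.C (C a) * Polynomial.X ^ l)).comp
      (bet v)).comp (hh (k := k) (m := m) w).toRingHom =
      (hh (k := k) (m := m) w).toRingHom.comp (tau (fun t => C a * v t)).toRingHom := by
    apply MvPolynomial.ringHom_ext'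
    · ext1 b
      change (bet v (hh w (C b))).eval _ = hh w (tau (fun t => C a * v t) (C b))
      have h2 : hh (k := k) (m := m) w (C b) = Polynomial.C (C b) := (hh w).commutes b
      have h3 : b0 v (C b) = Polynomial.C (Polynomial.C (C b)) := (b0 v).commutes b
      have h4 : tau (fun t => C a * v t) (C b) = C b := (tau (fun t => C a * v t)).commutes b
      rw [h4, h2, bet_C, h3, Polynomial.eval_C]
    · intro i
      change (bet v (hh w (X i))).eval _ = hh w (tau (fun t => C a * v t) (X i))
      rcases i with i | t
      · rw [tau_inl, hh_inl, map_mul, map_pow, bet_C, bet_X, b0_inl, Polynomial.eval_mul,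
          Polynomial.eval_pow, Polynomial.eval_C, Polynomial.eval_C]
      · rw [tau_inr, hh_inr, bet_C, b0_inr, map_add, hh_inr, map_mul, map_mul, rename_C,
          hh_hom w (v t) l (hv t), Polynomial.eval_add, Polynomial.eval_C, Polynomial.eval_mul,
          Polynomial.eval_C, Polynomial.eval_X]
        have h2 : hh (k := k) (m := m) w (C a) = Polynomial.C (C a) := (hh w).commutes a
        rw [h2]
        ring
  exact congrArg (fun g : MvPolynomial (Fin n ⊕ Fin m) k →+* Polynomial _ => g f) h1

end beta

end Pool.Agent.H519R3.RE
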