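import Pool.Agent.H519R3.RE.X7

set_option autoImplicit false
set_option linter.unusedSectionVars false

open MvPolynomial AlgebraicGeometry CategoryTheory Pool.Agent.H920R2 Pool.Agent.H519R3.RS

universe u v

namespace Pool.Agent.H519R3.RE

section aux

variable {k : Type u} [Field k] {p : ℕ} (g : ℕ → k)

lemma Lp_mono (hp : p.Prime) {i : ℕ} {a : k} (h : Lp p g i a = 0) : Lp p g (i + 1) a = 0 := by
  rw [Lp_succ]
  split_ifs
  · exact h
  · rw [h, zero_pow hp.ne_zero, mul_zero, sub_zero]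

lemma Lp_self (hp : p.Prime) (i : ℕ) : Lp p g (i + 1) (g i) = 0 := by
  rw [Lp_succ]
  split_ifs with h
  · exact h
  · rw [← pow_succ]
    have h1 : p - 1 + 1 = p := by have := hp.pos; omega
    rw [h1, sub_self]

lemma Lp_lt (hp : p.Prime) {i j : ℕ} (h : j < i) : Lp p g i (g j) = 0 := by
  induction i with
  | zero => omega
  | succ i ih =>
    rcases Nat.lt_succ_iff_lt_or_eq.1 h with h1 | h1
    · exact Lp_mono g hp (ih h1)
    · subst h1
      exact Lp_self g hp j

lemma qe_pos (hp : p.Prime) (i : ℕ) : 0 < qe p g i := by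
  induction i with
  | zero => exact Nat.one_pos
  | succ i ih =>
    rw [qe_succ]
    split_ifs
    · exact ih
    · exact Nat.mul_pos hp.pos ih

end aux

section rad

variable {k : Type u} [Field k] {n m : ℕ}

/-- Powers of polynomials without common zeros outside the centre. -/
theorem zero_rad (w : Fin n → ℕ) (v : Fin m → MvPolynomial (Fin n) k)
    (hV : ∀ (K : Type u) [Field K] [Algebra k K] (z : Fin n → K), (∃ i, 0 < w i ∧ z i ≠ 0) →
      ∃ t, aeval z (v t) ≠ 0) (a : k) (ha : a ≠ 0) (q : ℕ) (s : Fin n) (hws : 0 < w s) :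
    (X s : MvPolynomial (Fin n) k) ∈
      (Ideal.span (Set.range fun t => C a * v t ^ q)).radical := by
  rw [Ideal.radical_eq_sInf, Ideal.mem_sInf]
  rintro P ⟨hle, hP⟩
  by_contra hs
  let K := FractionRing (MvPolynomial (Fin n) k ⧸ P)
  let z : Fin n → K := fun i => algebraMap _ K (Ideal.Quotient.mk P (X i))
  have hz : ∀ f : MvPolynomial (Fin n) k, aeval z f = algebraMap _ K (Ideal.Quotient.mk P f) := by
    intro f
    have h1 : (aeval z : MvPolynomial (Fin n) k →ₐ[k] K) =
        (IsScalarTower.toAlgHom k (MvPolynomial (Fin n) k ⧸ P) K).comp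
          (Ideal.Quotient.mkₐ k P) := by
      apply MvPolynomial.algHom_ext
      intro i
      rw [aeval_X]
      rfl
    rw [h1]
    rfl
  have hz0 : ∃ i, 0 < w i ∧ z i ≠ 0 := by
    refine ⟨s, hws, fun h => hs ?_⟩
    have h1 : algebraMap (MvPolynomial (Fin n) k ⧸ P) K (Ideal.Quotient.mk P (X s)) = 0 := h
    rw [IsFractionRing.to_map_eq_zero_iff] at h1
    exact Ideal.Quotient.eq_zero_iff_mem.1 h1
  obtain ⟨t, ht⟩ := hV K z hz0
  apply ht
  have h2 : C a * v t ^ q ∈ P := hle (Ideal.subset_span ⟨t, rfl⟩)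
  have h3 : v t ^ q ∈ P := by
    have h4 : v t ^ q = C a⁻¹ * (C a * v t ^ q) := by
      rw [← mul_assoc, ← C_mul, inv_mul_cancel₀ ha, C_1, one_mul]
    rw [h4]
    exact P.mul_mem_left _ h2
  rw [hz, Ideal.Quotient.eq_zero_iff_mem.2 (hP.mem_of_pow_mem _ h3), map_zero]

end rad

section raise

variable {k : Type u} [Field k] {n m e : ℕ} (γ : Fin e → k) (v : Fin m → MvPolynomial (Fin n) k)

/-- The extension of a family by zero. -/
noncomputable def gx (i : ℕ) : k := if h : i < e then γ ⟨i, h⟩ else 0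

lemma gx_lt (j : Fin e) : gx γ j = γ j := by
  unfold gx
  rw [dif_pos j.2]

/-- The multiples of a vector. -/
noncomputable def vm : Fin e → Fin m → MvPolynomial (Fin n) k := fun j t => C (γ j) * v t

/-- The weights are raised by the order of the group. -/
theorem raise {p : ℕ} (hp : p.Prime) [CharP k p] (w : Fin n → ℕ) (l : ℕ)
    (hv : ∀ t, IsWeightedHomogeneous w (v t) l) (i d : ℕ) (hi : i ≤ e)
    (b : MvPolynomial (Fin n ⊕ Fin m) k) (hb : b ∈ CS (vm γ v) i) (hd : b ∈ EI (xs k n m) w d)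
    (a : k) :
    tau (fun t => C a * v t) b - b ∈ EI (xs k n m) w (d + qe p (gx γ) i * l) ∧
      (Lp p (gx γ) i a = 0 → tau (fun t => C a * v t) b = b) := by
  let B := MvPolynomial (Fin n ⊕ Fin m) k
  obtain ⟨f, hf⟩ := dvd_of_mem w hd
  let u : Polynomial B := Polynomial.X ^ l
  have hu : u ≠ 0 := pow_ne_zero _ Polynomial.X_ne_zero
  have hX0 : (Polynomial.X : Polynomial B) ^ d ≠ 0 := pow_ne_zero _ Polynomial.X_ne_zero
  have hal : ∀ c : k, algebraMap k (Polynomial B) c = Polynomial.C (C c) := fun c => rfl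
  have hbc : ∀ c : k, bet v (algebraMap k (Polynomial B) c * u) =
      Polynomial.C (algebraMap k (Polynomial B) c * u) := by
    intro c
    have h3 : b0 v (C c) = Polynomial.C (Polynomial.C (C c)) := (b0 v).commutes c
    rw [hal, map_mul, map_pow, bet_C, bet_X, h3, Polynomial.C_mul, Polynomial.C_pow]
  have key : ∀ c : k, Polynomial.X ^ d * (bet v f).eval (algebraMap k (Polynomial B) c * u) =
      hh w (tau (fun t => C c * v t) b) := by
    intro c
    rw [← bet_hh v w l hv c b, hf, map_mul, map_pow, bet_X, Polynomial.eval_mul,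
      Polynomial.eval_pow, Polynomial.eval_C]
    rfl
  have hinv : ∀ j < i, (bet v f).comp (Polynomial.X +
      Polynomial.C (algebraMap k (Polynomial B) (gx γ j) * u)) = bet v f := by
    intro j hj
    have hje : j < e := lt_of_lt_of_le hj hi
    have h1 : tau (fun t => C (gx γ j) * v t) b = b := by
      have h2 := hb ⟨j, hje⟩ hj
      have h3 : gx γ j = γ ⟨j, hje⟩ := gx_lt γ ⟨j, hje⟩
      rw [h3]
      exact h2
    have h2 := key (gx γ j)
    rw [h1, hf] at h2
    have h3 := mul_left_cancel₀ hX0 h2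
    rw [bet_comp v _ (hbc _), h3]
  have _ : CharP (Polynomial B) p := inferInstance
  have h1 := dvd_shift (gx γ) hp u hu (bet v f) i hinv a
  rw [bet_eval_zero] at h1
  have h2 : hh w (tau (fun t => C a * v t) b - b) =
      Polynomial.X ^ d * ((bet v f).eval (algebraMap k (Polynomial B) a * u) - f) := by
    rw [map_sub, ← key a, mul_sub, ← hf]
  constructor
  · apply mem_of_dvd
    rw [h2, pow_add]
    refine mul_dvd_mul_left _ ?_
    refine dvd_trans ?_ h1
    refine Dvd.dvd.mul_left ?_ _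
    change Polynomial.X ^ (qe p (gx γ) i * l) ∣ (Polynomial.X ^ l) ^ qe p (gx γ) i
    rw [← pow_mul, mul_comm]
  · intro h0
    rw [h0, map_zero, zero_mul, zero_dvd_iff] at h1
    rw [h1, mul_zero] at h2
    have h3 := eval_hh w (tau (fun t => C a * v t) b - b)
    rw [h2, Polynomial.eval_zero] at h3
    exact sub_eq_zero.1 h3.symm

/-- The norms of the last coordinates. -/
noncomputable def cn (p i : ℕ) (t : Fin m) : MvPolynomial (Fin n ⊕ Fin m) k :=
  Nh p (gx γ) (X (Sum.inr t)) (rename Sum.inl (v t)) i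

lemma tau_cn {p : ℕ} (hp : p.Prime) [CharP k p] (i : ℕ) (t : Fin m) (a : k) :
    tau (fun t => C a * v t) (cn γ v p i t) - cn γ v p i t =
      rename Sum.inl (C (Lp p (gx γ) i a) * v t ^ qe p (gx γ) i) := by
  have h1 := map_Nh (gx γ) (tau (fun t => C a * v t)).toRingHom (p := p)
    (fun c => (tau (fun t => C a * v t)).commutes c) (X (Sum.inr t)) (rename Sum.inl (v t)) i
  have h2 : tau (fun t => C a * v t) (cn γ v p i t) = Nh p (gx γ)
      (tau (fun t => C a * v t) (X (Sum.inr t)))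
      (tau (fun t => C a * v t) (rename Sum.inl (v t))) i := h1
  have h3 : (rename Sum.inl (C a * v t) : MvPolynomial (Fin n ⊕ Fin m) k) =
      algebraMap k _ a * rename Sum.inl (v t) := by
    rw [map_mul, rename_C]
    rfl
  rw [h2, tau_inr, tau_ren, Nh_add (gx γ) hp, h3, Nh_smul (gx γ) hp, cn, add_sub_cancel_left,
    map_mul, map_pow, rename_C]
  rfl

end raise

section tower

variable {k : Type u} [Field k] {n m e : ℕ} (γ : Fin e → k) (v : Fin m → MvPolynomial (Fin n) k)

/-- The nontrivial steps of the tower. -/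
theorem sstep_fin {p : ℕ} (hp : p.Prime) [CharP k p] (w : Fin n → ℕ)
    (l : ℕ) (hl : 0 < l) (hv : ∀ t, IsWeightedHomogeneous w (v t) l)
    (hV : ∀ (K : Type u) [Field K] [Algebra k K] (z : Fin n → K), (∃ i, 0 < w i ∧ z i ≠ 0) →
      ∃ t, aeval z (v t) ≠ 0) (i : ℕ) (hi : i < e) (hlam : Lp p (gx γ) i (gx γ i) ≠ 0) :
    SStep p (EI (xs k n m) w) (CS (vm γ v) i) (CS (vm γ v) (i + 1)) := by
  have hpk : (p : k) = 0 := CharP.cast_eq_zero k p
  have hgi : gx γ i = γ ⟨i, hi⟩ := gx_lt γ ⟨i, hi⟩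
  let σ : CS (vm γ v) i ≃ₐ[k] CS (vm γ v) i :=
    resAut (tau (vm γ v ⟨i, hi⟩)) p hp.pos (tau_p _ hpk) (CS (vm γ v) i)
      (tau_CS (vm γ v) i ⟨i, hi⟩)
  obtain ⟨h3, h4⟩ := step_core w (EI (xs k n m) w) (CS (vm γ v) i) (fun c => σ c - c)
    (qe p (gx γ) i * l) 0 (p ^ i) (pow_pos hp.pos i)
    (iS (vm γ v) i) (fun d f hf => ren_EI w hf)
    (fun d a ha => pow_EI_CS (vm γ v) hp hpk w i hi.le d a ha)
    (fun t : Fin m => C (Lp p (gx γ) i (gx γ i)) * v t ^ qe p (gx γ) i)
    (fun t => by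
      rw [zero_add]
      have h1 := ((hv t).pow (qe p (gx γ) i)).C_mul (Lp p (gx γ) i (gx γ i))
      simpa using h1)
    (fun s hws => zero_rad w v hV _ hlam _ s hws)
    (fun t => by
      refine ⟨⟨cn γ v p i t, ?_⟩, ?_, ?_⟩
      · intro j hj
        have h1 := tau_cn γ v hp i t (γ j)
        have h2 : Lp p (gx γ) i (γ j) = 0 := by
          rw [← gx_lt γ j]
          exact Lp_lt (gx γ) hp hj
        rw [h2, C_0, zero_mul, map_zero] at h1
        exact sub_eq_zero.1 h1
      · change cn γ v p i t ∈ EI (xs k n m) w 0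
        rw [EI_zero]
        trivial
      · apply Subtype.ext
        change tau (vm γ v ⟨i, hi⟩) (cn γ v p i t) - cn γ v p i t = _
        have h1 := tau_cn γ v hp i t (gx γ i)
        rw [hgi] at h1
        rw [hgi]
        exact h1)
  refine ⟨σ, qe p (gx γ) i * l, ?_, Nat.mul_pos (qe_pos _ hp i) hl, ?_, h3, h4, ?_⟩
  · intro b
    exact Subtype.ext ((coe_iter_resAut _ _ _ _ _ _ _ b).trans (tau_p _ hpk _))
  · intro d a ha
    exact (raise γ v hp w l hv i d hi.le a a.2 ha (γ ⟨i, hi⟩)).1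
  · intro b
    constructor
    · intro h
      refine ⟨fun j hj => h j (by omega), Subtype.ext (h ⟨i, hi⟩ (Nat.lt_succ_self i))⟩
    · rintro ⟨h1, h2⟩ j hj
      rcases Nat.lt_succ_iff_lt_or_eq.1 hj with h3 | h3
      · exact h1 j h3
      · have h4 : j = ⟨i, hi⟩ := Fin.ext h3
        rw [h4]
        exact congrArg Subtype.val h2

/-- The rings of invariants are good. -/
theorem good_fin {p : ℕ} (hp : p.Prime) [CharP k p] (w : Fin n → ℕ) (hw : ∃ i, 0 < w i)
    (l : ℕ) (hl : 0 < l) (hv : ∀ t, IsWeightedHomogeneous w (v t) l)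
    (hV : ∀ (K : Type u) [Field K] [Algebra k K] (z : Fin n → K), (∃ i, 0 < w i ∧ z i ≠ 0) →
      ∃ t, aeval z (v t) ≠ 0) (i : ℕ) (hi : i ≤ e) :
    Good k (isFilt_restr (isFilt_EI (xs k n m) w) (CS (vm γ v) i)) ∧
      restr (EI (xs k n m) w) (CS (vm γ v) i) 1 ≠ ⊥ := by
  have hpk : (p : k) = 0 := CharP.cast_eq_zero k p
  induction i with
  | zero =>
    refine good_top (isFilt_EI (xs k n m) w) (good_B w) (one_ne_bot w hw) ?_
    exact top_unique fun b _ j hj => absurd hj (Nat.not_lt_zero _)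
  | succ i ih =>
    obtain ⟨h1, h2⟩ := ih (by omega)
    by_cases hlam : Lp p (gx γ) i (gx γ i) = 0
    · have h3 : CS (vm γ v) (i + 1) = CS (vm γ v) i := by
        apply le_antisymm (CS_le _ i)
        intro b hb j hj
        rcases Nat.lt_succ_iff_lt_or_eq.1 hj with h4 | h4
        · exact hb j h4
        · have h5 := (raise γ v hp w l hv i 0 (by omega) b hb (by rw [EI_zero]; trivial)
            (γ j)).2
          apply h5
          rw [← gx_lt γ j, h4]
          exact hlam
      rw [h3]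
      exact ⟨h1, h2⟩
    · exact good_sstep hp hpk (isFilt_EI (xs k n m) w)
        (sstep_fin γ v hp w l hl hv hV i (by omega) hlam) h1 h2

end tower

end Pool.Agent.H519R3.RE
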