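import Pool.Agent.H519R3.RE.X8

set_option autoImplicit false
set_option linter.unusedSectionVars false

open MvPolynomial AlgebraicGeometry CategoryTheory Pool.Agent.H920R2 Pool.Agent.H519R3.RS

universe u v

namespace Pool.Agent.H519R3.RE

section adj

variable {k : Type u} [Field k] {n m r : ℕ} (w : Fin n → ℕ)
  (v : Fin r → Fin m → MvPolynomial (Fin n) k)

/-- The full submatrices. -/
noncomputable def VJ (J : Fin r → Fin m) : Matrix (Fin r) (Fin r) (MvPolynomial (Fin n) k) :=
  Matrix.of fun a b => v a (J b)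

/-- The dual coordinates. -/
noncomputable def eta (J : Fin r → Fin m) (j : Fin r) : MvPolynomial (Fin n ⊕ Fin m) k :=
  ∑ b, rename Sum.inl ((VJ v J).adjugate b j) * X (Sum.inr (J b))

lemma tau_eta (J : Fin r → Fin m) (j h : Fin r) (a : k) :
    tau (fun t => C a * v h t) (eta v J j) = eta v J j +
      (if h = j then algebraMap k _ a * rename Sum.inl (VJ v J).det else 0) := by
  unfold eta
  rw [map_sum]
  have h1 : ∀ b, tau (fun t => C a * v h t) (rename Sum.inl ((VJ v J).adjugate b j) *
      X (Sum.inr (J b))) = rename Sum.inl ((VJ v J).adjugate b j) * X (Sum.inr (J b)) +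
      rename Sum.inl (C a * (v h (J b) * (VJ v J).adjugate b j)) := by
    intro b
    rw [map_mul, tau_ren, tau_inr, map_mul, map_mul, map_mul]
    ring
  rw [Finset.sum_congr rfl fun b _ => h1 b, Finset.sum_add_distrib, ← map_sum, ← Finset.mul_sum]
  congr 1
  have h2 : ∑ b, v h (J b) * (VJ v J).adjugate b j = if h = j then (VJ v J).det else 0 := by
    have h3 := congrFun (congrFun (Matrix.mul_adjugate (VJ v J)) h) j
    rw [Matrix.mul_apply, Matrix.smul_apply, Matrix.one_apply, smul_eq_mul, mul_ite, mul_one,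
      mul_zero] at h3
    exact h3
  rw [h2]
  split_ifs
  · rw [map_mul, rename_C]
    rfl
  · rw [mul_zero, map_zero]

variable (l : Fin r → ℕ) (hv : ∀ j t, IsWeightedHomogeneous w (v j t) (l j))

include hv in
lemma hom_VJ (J : Fin r → Fin m) : IsWeightedHomogeneous w (VJ v J).det (∑ a, l a) :=
  hom_det w (VJ v J) l fun a b => hv a (J b)

include hv in
lemma hom_adj (J : Fin r → Fin m) (b j : Fin r) :
    IsWeightedHomogeneous w ((VJ v J).adjugate b j) (∑ a, Function.update l j 0 a) := by
  rw [Matrix.adjugate_apply]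
  refine hom_det w _ _ fun a c => ?_
  by_cases h : a = j
  · subst h
    rw [Matrix.updateRow_self, Function.update_self]
    by_cases hbc : c = b
    · subst hbc
      rw [Pi.single_eq_same]
      exact isWeightedHomogeneous_one k w
    · rw [Pi.single_eq_of_ne hbc]
      exact isWeightedHomogeneous_zero k w 0
  · rw [Matrix.updateRow_ne h, Function.update_of_ne h]
    exact hv a (J c)

lemma sum_update (j : Fin r) : ∑ a, Function.update l j 0 a + l j = ∑ a, l a := by
  rw [← Finset.add_sum_erase Finset.univ l (Finset.mem_univ j),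
    ← Finset.add_sum_erase Finset.univ (Function.update l j 0) (Finset.mem_univ j)]
  have h4 : ∑ i ∈ Finset.univ.erase j, Function.update l j 0 i = ∑ i ∈ Finset.univ.erase j, l i :=
    Finset.sum_congr rfl fun i hi => Function.update_of_ne (Finset.ne_of_mem_erase hi) _ _
  rw [h4, Function.update_self]
  omega

include hv in
lemma eta_mem (J : Fin r → Fin m) (j : Fin r) :
    eta v J j ∈ EI (xs k n m) w (∑ a, Function.update l j 0 a) := by
  unfold eta
  exact Ideal.sum_mem _ fun b _ => Ideal.mul_mem_right _ _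
    (ren_EI w (hom_mem_EI w (hom_adj w v l hv J b j)))

end adj

section nhmem

variable {k : Type u} [Field k] {p : ℕ} (g : ℕ → k) {n : ℕ} (w : Fin n → ℕ)

lemma Nh_mem (hp : p.Prime) {S : Type v} [CommRing S] [Algebra k S] (x : Fin n → S) (μ : ℕ)
    (y c : S) (hy : y ∈ EI x w μ) (hc : c ∈ EI x w μ) (i : ℕ) :
    Nh p g y c i ∈ EI x w (qe p g i * μ) := by
  induction i with
  | zero =>
    have h1 : qe p g 0 * μ = μ := Nat.one_mul μ
    rw [h1]
    exact hy
  | succ i ih =>
    rw [Nh_succ, qe_succ]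
    split_ifs
    · exact ih
    · have h1 : p * qe p g i * μ = p * (qe p g i * μ) := by ring
      rw [h1]
      refine Ideal.sub_mem _ (pow_mem_EI x w ih p) ?_
      have h2 : algebraMap k S (Lp p g i (g i)) * c ^ qe p g i ∈ EI x w (qe p g i * μ) :=
        Ideal.mul_mem_left _ _ (pow_mem_EI x w hc _)
      have h3 := mul_mem_EI x w (pow_mem_EI x w h2 (p - 1)) ih
      have h4 : (p - 1) * (qe p g i * μ) + qe p g i * μ = p * (qe p g i * μ) := by
        obtain ⟨p', rfl⟩ : ∃ p', p = p' + 1 := ⟨p - 1, by have := hp.pos; omega⟩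
        rw [Nat.add_sub_cancel]
        ring
      rwa [h4] at h3

end nhmem

section raise

variable {k : Type u} [Field k] {n m r e : ℕ} (γ : Fin e → k) (dir : Fin e → Fin r)
  (v : Fin r → Fin m → MvPolynomial (Fin n) k)

/-- The translations in one direction. -/
noncomputable def gy (j : Fin r) (i : ℕ) : k :=
  if h : i < e then (if dir ⟨i, h⟩ = j then γ ⟨i, h⟩ else 0) else 0

lemma gy_eq (j : Fin r) (i : Fin e) (h : dir i = j) : gy γ dir j i = γ i := by
  unfold gy
  rw [dif_pos i.2, if_pos h]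

lemma gy_ne (j : Fin r) (i : Fin e) (h : dir i ≠ j) : gy γ dir j i = 0 := by
  unfold gy
  rw [dif_pos i.2, if_neg h]

/-- The translations. -/
noncomputable def vr : Fin e → Fin m → MvPolynomial (Fin n) k :=
  fun i t => C (γ i) * v (dir i) t

/-- The weights are raised by the order of the group. -/
theorem raise_r {p : ℕ} (hp : p.Prime) [CharP k p] (w : Fin n → ℕ) (l : Fin r → ℕ)
    (hv : ∀ j t, IsWeightedHomogeneous w (v j t) (l j)) (j : Fin r) (i d : ℕ) (hi : i ≤ e)
    (b : MvPolynomial (Fin n ⊕ Fin m) k) (hb : b ∈ CS (vr γ dir v) i)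
    (hd : b ∈ EI (xs k n m) w d) (a : k) :
    tau (fun t => C a * v j t) b - b ∈ EI (xs k n m) w (d + qe p (gy γ dir j) i * l j) ∧
      (Lp p (gy γ dir j) i a = 0 → tau (fun t => C a * v j t) b = b) := by
  let B := MvPolynomial (Fin n ⊕ Fin m) k
  obtain ⟨f, hf⟩ := dvd_of_mem w hd
  let u : Polynomial B := Polynomial.X ^ l j
  have hu : u ≠ 0 := pow_ne_zero _ Polynomial.X_ne_zero
  have hX0 : (Polynomial.X : Polynomial B) ^ d ≠ 0 := pow_ne_zero _ Polynomial.X_ne_zero
  have hal : ∀ c : k, algebraMap k (Polynomial B) c = Polynomial.C (C c) := fun c => rfl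
  have hbc : ∀ c : k, bet (v j) (algebraMap k (Polynomial B) c * u) =
      Polynomial.C (algebraMap k (Polynomial B) c * u) := by
    intro c
    have h3 : b0 (v j) (C c) = Polynomial.C (Polynomial.C (C c)) := (b0 (v j)).commutes c
    rw [hal, map_mul, map_pow, bet_C, bet_X, h3, Polynomial.C_mul, Polynomial.C_pow]
  have key : ∀ c : k, Polynomial.X ^ d * (bet (v j) f).eval (algebraMap k (Polynomial B) c * u) =
      hh w (tau (fun t => C c * v j t) b) := by
    intro c
    rw [← bet_hh (v j) w (l j) (hv j) c b, hf, map_mul, map_pow, bet_X, Polynomial.eval_mul,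
      Polynomial.eval_pow, Polynomial.eval_C]
    rfl
  have hinv : ∀ i' < i, (bet (v j) f).comp (Polynomial.X +
      Polynomial.C (algebraMap k (Polynomial B) (gy γ dir j i') * u)) = bet (v j) f := by
    intro i' hi'
    have hje : i' < e := lt_of_lt_of_le hi' hi
    by_cases hdir : dir ⟨i', hje⟩ = j
    · have h1 : tau (fun t => C (gy γ dir j i') * v j t) b = b := by
        have h2 := hb ⟨i', hje⟩ hi'
        have h3 : gy γ dir j i' = γ ⟨i', hje⟩ := gy_eq γ dir j ⟨i', hje⟩ hdir
        rw [h3, ← hdir]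
        exact h2
      have h2 := key (gy γ dir j i')
      rw [h1, hf] at h2
      have h3 := mul_left_cancel₀ hX0 h2
      rw [bet_comp (v j) _ (hbc _), h3]
    · have h3 : gy γ dir j i' = 0 := gy_ne γ dir j ⟨i', hje⟩ hdir
      rw [h3, map_zero, zero_mul, Polynomial.C_0, add_zero, Polynomial.comp_X]
  have _ : CharP (Polynomial B) p := inferInstance
  have h1 := dvd_shift (gy γ dir j) hp u hu (bet (v j) f) i hinv a
  rw [bet_eval_zero] at h1
  have h2 : hh w (tau (fun t => C a * v j t) b - b) =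
      Polynomial.X ^ d * ((bet (v j) f).eval (algebraMap k (Polynomial B) a * u) - f) := by
    rw [map_sub, ← key a, mul_sub, ← hf]
  constructor
  · apply mem_of_dvd
    rw [h2, pow_add]
    refine mul_dvd_mul_left _ ?_
    refine dvd_trans ?_ h1
    refine Dvd.dvd.mul_left ?_ _
    change Polynomial.X ^ (qe p (gy γ dir j) i * l j) ∣
      (Polynomial.X ^ l j) ^ qe p (gy γ dir j) i
    rw [← pow_mul, mul_comm]
  · intro h0
    rw [h0, map_zero, zero_mul, zero_dvd_iff] at h1
    rw [h1, mul_zero] at h2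
    have h3 := eval_hh w (tau (fun t => C a * v j t) b - b)
    rw [h2, Polynomial.eval_zero] at h3
    exact sub_eq_zero.1 h3.symm

/-- The norms of the dual coordinates. -/
noncomputable def cr (p i : ℕ) (J : Fin r → Fin m) (j : Fin r) : MvPolynomial (Fin n ⊕ Fin m) k :=
  Nh p (gy γ dir j) (eta v J j) (rename Sum.inl (VJ v J).det) i

lemma tau_cr {p : ℕ} (hp : p.Prime) [CharP k p] (i : ℕ) (J : Fin r → Fin m) (j h : Fin r)
    (a : k) : tau (fun t => C a * v h t) (cr γ dir v p i J j) - cr γ dir v p i J j =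
      if h = j then rename Sum.inl (C (Lp p (gy γ dir j) i a) *
        (VJ v J).det ^ qe p (gy γ dir j) i) else 0 := by
  have h1 := map_Nh (gy γ dir j) (tau (fun t => C a * v h t)).toRingHom (p := p)
    (fun c => (tau (fun t => C a * v h t)).commutes c) (eta v J j)
    (rename Sum.inl (VJ v J).det) i
  have h2 : tau (fun t => C a * v h t) (cr γ dir v p i J j) = Nh p (gy γ dir j)
      (tau (fun t => C a * v h t) (eta v J j))
      (tau (fun t => C a * v h t) (rename Sum.inl (VJ v J).det)) i := h1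
  rw [h2, tau_eta, tau_ren]
  split_ifs with hh
  · rw [Nh_add (gy γ dir j) hp, Nh_smul (gy γ dir j) hp, cr, add_sub_cancel_left, map_mul,
      map_pow, rename_C]
    rfl
  · rw [add_zero, cr, sub_self]

end raise

section tower

variable {k : Type u} [Field k] {n m r e : ℕ} (γ : Fin e → k) (dir : Fin e → Fin r)
  (v : Fin r → Fin m → MvPolynomial (Fin n) k)

/-- The nontrivial steps of the tower. -/
theorem sstep_r {p : ℕ} (hp : p.Prime) [CharP k p] (w : Fin n → ℕ)
    (l : Fin r → ℕ) (hl : ∀ j, 0 < l j) (hv : ∀ j t, IsWeightedHomogeneous w (v j t) (l j))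
    (hV : ∀ (K : Type u) [Field K] [Algebra k K] (z : Fin n → K), (∃ i, 0 < w i ∧ z i ≠ 0) →
      LinearIndependent K (fun j t => aeval z (v j t))) (i : ℕ) (hi : i < e)
    (hlam : Lp p (gy γ dir (dir ⟨i, hi⟩)) i (γ ⟨i, hi⟩) ≠ 0) :
    SStep p (EI (xs k n m) w) (CS (vr γ dir v) i) (CS (vr γ dir v) (i + 1)) := by
  have hpk : (p : k) = 0 := CharP.cast_eq_zero k p
  let j : Fin r := dir ⟨i, hi⟩
  let g := gy γ dir j
  let σ : CS (vr γ dir v) i ≃ₐ[k] CS (vr γ dir v) i :=
    resAut (tau (vr γ dir v ⟨i, hi⟩)) p hp.pos (tau_p _ hpk) (CS (vr γ dir v) i)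
      (tau_CS (vr γ dir v) i ⟨i, hi⟩)
  have hrad : ∀ s, 0 < w s → (X s : MvPolynomial (Fin n) k) ∈ (Ideal.span (Set.range fun J :
      Fin r → Fin m => C (Lp p g i (γ ⟨i, hi⟩)) * (VJ v J).det ^ qe p g i)).radical := by
    intro s hws
    have h1 := minors_rad w v hV s hws
    have h2 : (Ideal.span (Set.range fun J : Fin r → Fin m =>
        (Matrix.of fun a b => v a (J b)).det)).radical ≤ (Ideal.span (Set.range fun J :
        Fin r → Fin m => C (Lp p g i (γ ⟨i, hi⟩)) * (VJ v J).det ^ qe p g i)).radical := by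
      rw [Ideal.radical_le_radical_iff, Ideal.span_le]
      rintro _ ⟨J, rfl⟩
      refine ⟨qe p g i, ?_⟩
      have h4 : (VJ v J).det ^ qe p g i = C (Lp p g i (γ ⟨i, hi⟩))⁻¹ *
          (C (Lp p g i (γ ⟨i, hi⟩)) * (VJ v J).det ^ qe p g i) := by
        rw [← mul_assoc, ← C_mul, inv_mul_cancel₀ hlam, C_1, one_mul]
      change (VJ v J).det ^ qe p g i ∈ _
      rw [h4]
      exact Ideal.mul_mem_left _ _ (Ideal.subset_span ⟨J, rfl⟩)
    exact h2 h1
  obtain ⟨h3, h4⟩ := step_core w (EI (xs k n m) w) (CS (vr γ dir v) i) (fun c => σ c - c)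
    (qe p g i * l j) (qe p g i * ∑ a, Function.update l j 0 a) (p ^ i) (pow_pos hp.pos i)
    (iS (vr γ dir v) i) (fun d f hf => ren_EI w hf)
    (fun d a ha => pow_EI_CS (vr γ dir v) hp hpk w i hi.le d a ha)
    (fun J : Fin r → Fin m => C (Lp p g i (γ ⟨i, hi⟩)) * (VJ v J).det ^ qe p g i)
    (fun J => by
      rw [← mul_add, sum_update l j]
      have h1 := ((hom_VJ w v l hv J).pow (qe p g i)).C_mul (Lp p g i (γ ⟨i, hi⟩))
      simpa using h1)
    hrad
    (fun J => by
      refine ⟨⟨cr γ dir v p i J j, ?_⟩, ?_, ?_⟩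
      · intro i' hi'
        have h1 := tau_cr γ dir v hp i J j (dir i') (γ i')
        have h2 : (if dir i' = j then rename Sum.inl (C (Lp p (gy γ dir j) i (γ i')) *
            (VJ v J).det ^ qe p (gy γ dir j) i) else 0 : MvPolynomial (Fin n ⊕ Fin m) k) = 0 := by
          split_ifs with hh
          · have h5 : Lp p (gy γ dir j) i (γ i') = 0 := by
              rw [← gy_eq γ dir j i' hh]
              exact Lp_lt (gy γ dir j) hp hi'
            rw [h5, C_0, zero_mul, map_zero]
          · rfl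
        rw [h2] at h1
        exact sub_eq_zero.1 h1
      · change cr γ dir v p i J j ∈ EI (xs k n m) w (qe p g i * ∑ a, Function.update l j 0 a)
        refine Nh_mem g w hp (xs k n m) _ _ _ (eta_mem w v l hv J j) ?_ i
        refine EI_anti _ w ?_ (ren_EI w (hom_mem_EI w (hom_VJ w v l hv J)))
        rw [← sum_update l j]
        omega
      · apply Subtype.ext
        change tau (vr γ dir v ⟨i, hi⟩) (cr γ dir v p i J j) - cr γ dir v p i J j = _
        have h1 := tau_cr γ dir v hp i J j j (γ ⟨i, hi⟩)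
        rw [if_pos rfl] at h1
        exact h1)
  refine ⟨σ, qe p g i * l j, ?_, Nat.mul_pos (qe_pos _ hp i) (hl j), ?_, h3, h4, ?_⟩
  · intro b
    exact Subtype.ext ((coe_iter_resAut _ _ _ _ _ _ _ b).trans (tau_p _ hpk _))
  · intro d a ha
    exact (raise_r γ dir v hp w l hv j i d hi.le a a.2 ha (γ ⟨i, hi⟩)).1
  · intro b
    constructor
    · intro h
      refine ⟨fun j hj => h j (by omega), Subtype.ext (h ⟨i, hi⟩ (Nat.lt_succ_self i))⟩
    · rintro ⟨h1, h2⟩ j' hj
      rcases Nat.lt_succ_iff_lt_or_eq.1 hj with h3 | h3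
      · exact h1 j' h3
      · have h4 : j' = ⟨i, hi⟩ := Fin.ext h3
        rw [h4]
        exact congrArg Subtype.val h2

/-- The rings of invariants are good. -/
theorem good_r {p : ℕ} (hp : p.Prime) [CharP k p] (w : Fin n → ℕ) (hw : ∃ i, 0 < w i)
    (l : Fin r → ℕ) (hl : ∀ j, 0 < l j) (hv : ∀ j t, IsWeightedHomogeneous w (v j t) (l j))
    (hV : ∀ (K : Type u) [Field K] [Algebra k K] (z : Fin n → K), (∃ i, 0 < w i ∧ z i ≠ 0) →
      LinearIndependent K (fun j t => aeval z (v j t))) (i : ℕ) (hi : i ≤ e) :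
    Good k (isFilt_restr (isFilt_EI (xs k n m) w) (CS (vr γ dir v) i)) ∧
      restr (EI (xs k n m) w) (CS (vr γ dir v) i) 1 ≠ ⊥ := by
  have hpk : (p : k) = 0 := CharP.cast_eq_zero k p
  induction i with
  | zero =>
    refine good_top (isFilt_EI (xs k n m) w) (good_B w) (one_ne_bot w hw) ?_
    exact top_unique fun b _ j hj => absurd hj (Nat.not_lt_zero _)
  | succ i ih =>
    obtain ⟨h1, h2⟩ := ih (by omega)
    have hie : i < e := by omega
    by_cases hlam : Lp p (gy γ dir (dir ⟨i, hie⟩)) i (γ ⟨i, hie⟩) = 0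
    · have h3 : CS (vr γ dir v) (i + 1) = CS (vr γ dir v) i := by
        apply le_antisymm (CS_le _ i)
        intro b hb j hj
        rcases Nat.lt_succ_iff_lt_or_eq.1 hj with h4 | h4
        · exact hb j h4
        · have h6 : j = ⟨i, hie⟩ := Fin.ext h4
          have h5 := (raise_r γ dir v hp w l hv (dir ⟨i, hie⟩) i 0 (by omega) b hb
            (by rw [EI_zero]; trivial) (γ ⟨i, hie⟩)).2 hlam
          rw [h6]
          exact h5
      rw [h3]
      exact ⟨h1, h2⟩
    · exact good_sstep hp hpk (isFilt_EI (xs k n m) w)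
        (sstep_r γ dir v hp w l hl hv hV i hie hlam) h1 h2

end tower

end Pool.Agent.H519R3.RE
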